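import Pool.Agent.Helper61.PH.HLower

/-!
# The triangle of maximal area and the affine normal form (MP_8bf717_co, upper bounds)
-/

set_option autoImplicit false

open MeasureTheory Set

namespace Pool.Agent.Helper61.PH

open Pool.Agent.Helper37.PH

/-- Affine equivalences preserve p-hexagons. -/
theorem pHex_image {P : Set (ℝ × ℝ)} (h : IsPHexagon P) (A : (ℝ × ℝ) ≃ᵃ[ℝ] (ℝ × ℝ)) :
    IsPHexagon (A '' P) := by
  obtain ⟨v, hv, ⟨i, hi⟩, hcpt, hint, hfr⟩ := h
  have hlin : ∀ p q : ℝ × ℝ, A p - A q = A.linear (p - q) := by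
    intro p q
    have := A.toAffineMap.linearMap_vsub p q
    simpa using this.symm
  refine ⟨fun j => A (v j), hex_map hv A, ⟨i, ?_⟩, ?_, ?_, ?_⟩
  · rcases hi with hi | hi
    · left
      show A (v (i + 1)) - A (v i) = A (v (i + 4)) - A (v (i + 3))
      rw [hlin, hlin, hi]
    · right
      show A (v (i + 1)) - A (v i) = A (v (i + 3)) - A (v (i + 4))
      rw [hlin, hlin, hi]
  · exact hcpt.image A.toHomeomorphOfFiniteDimensional.continuous
  · have e : interior (A '' P) = A '' interior P :=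
      (A.toHomeomorphOfFiniteDimensional.image_interior P).symm
    rw [e]
    exact hint.image A
  · have e : frontier (A '' P) = A '' frontier P :=
      (A.toHomeomorphOfFiniteDimensional.image_frontier P).symm
    rw [e, hfr, image_iUnion]
    simp_rw [side_image]

/-- Affine equivalences preserve convex bodies. -/
theorem body_image {K : Set (ℝ × ℝ)} (h : IsBody K) (A : (ℝ × ℝ) ≃ᵃ[ℝ] (ℝ × ℝ)) :
    IsBody (A '' K) := by
  refine ⟨?_, ?_, ?_⟩
  · exact h.convex.affine_image A.toAffineMap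
  · exact h.compact.image A.toHomeomorphOfFiniteDimensional.continuous
  · have e : interior (A '' K) = A '' interior K :=
      (A.toHomeomorphOfFiniteDimensional.image_interior K).symm
    rw [e]
    exact h.interior_nonempty.image A

/-- Bodies in which the triangle with vertices `(-1, 0)`, `(1, 0)`, `(0, 1)` is an inscribed
triangle of maximal area. -/
structure NBody (K : Set (ℝ × ℝ)) : Prop where
  body : IsBody K
  mA : ((-1 : ℝ), (0 : ℝ)) ∈ K
  mB : ((1 : ℝ), (0 : ℝ)) ∈ K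
  mC : ((0 : ℝ), (1 : ℝ)) ∈ K
  maxi : ∀ p ∈ K, ∀ q ∈ K, ∀ r ∈ K, |cr (q - p) (r - p)| ≤ 2

theorem NBody.top {K : Set (ℝ × ℝ)} (h : NBody K) {q : ℝ × ℝ} (hq : q ∈ K) : q.2 ≤ 1 := by
  have := (abs_le.1 (h.maxi _ h.mA _ h.mB _ hq)).2
  simp only [cr, Prod.fst_sub, Prod.snd_sub] at this
  linarith

theorem NBody.bot {K : Set (ℝ × ℝ)} (h : NBody K) {q : ℝ × ℝ} (hq : q ∈ K) : -1 ≤ q.2 := by
  have := (abs_le.1 (h.maxi _ h.mA _ h.mB _ hq)).1
  simp only [cr, Prod.fst_sub, Prod.snd_sub] at this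
  linarith

theorem NBody.lft {K : Set (ℝ × ℝ)} (h : NBody K) {q : ℝ × ℝ} (hq : q ∈ K) :
    -1 ≤ q.1 + q.2 := by
  have := (abs_le.1 (h.maxi _ h.mB _ h.mC _ hq)).2
  simp only [cr, Prod.fst_sub, Prod.snd_sub] at this
  linarith

theorem NBody.rgt {K : Set (ℝ × ℝ)} (h : NBody K) {q : ℝ × ℝ} (hq : q ∈ K) :
    -1 ≤ q.2 - q.1 := by
  have := (abs_le.1 (h.maxi _ h.mA _ h.mC _ hq)).1
  simp only [cr, Prod.fst_sub, Prod.snd_sub] at this
  linarith

/-- A convex body has an inscribed triangle of maximal area, and it is not degenerate. -/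
theorem exists_max_triangle {K : Set (ℝ × ℝ)} (hK : IsBody K) :
    ∃ a ∈ K, ∃ b ∈ K, ∃ c ∈ K, cr (b - a) (c - a) ≠ 0 ∧
      ∀ p ∈ K, ∀ q ∈ K, ∀ r ∈ K, |cr (q - p) (r - p)| ≤ |cr (b - a) (c - a)| := by
  have hne : K.Nonempty := hK.interior_nonempty.mono interior_subset
  have hcpt : IsCompact (K ×ˢ (K ×ˢ K)) := hK.compact.prod (hK.compact.prod hK.compact)
  have hcont : Continuous fun z : (ℝ × ℝ) × ((ℝ × ℝ) × (ℝ × ℝ)) =>
      |cr (z.2.1 - z.1) (z.2.2 - z.1)| := by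
    unfold cr
    fun_prop
  obtain ⟨z, hz, hmax⟩ := hcpt.exists_isMaxOn (hne.prod (hne.prod hne)) hcont.continuousOn
  obtain ⟨a, b, c⟩ := z
  obtain ⟨ha, hb, hc⟩ := hz
  have hall : ∀ p ∈ K, ∀ q ∈ K, ∀ r ∈ K, |cr (q - p) (r - p)| ≤ |cr (b - a) (c - a)| := by
    intro p hp q hq r hr
    exact hmax (show ((p, q, r) : (ℝ × ℝ) × ((ℝ × ℝ) × (ℝ × ℝ))) ∈ K ×ˢ (K ×ˢ K) from
      ⟨hp, hq, hr⟩)
  refine ⟨a, ha, b, hb, c, hc, ?_, hall⟩
  -- a small triangle
  obtain ⟨x, hx⟩ := hK.interior_nonempty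
  obtain ⟨ε, hε, hball⟩ := Metric.mem_nhds_iff.1 (isOpen_interior.mem_nhds hx)
  have h1 : (x.1 + ε / 2, x.2) ∈ K := by
    apply interior_subset
    apply hball
    rw [Metric.mem_ball, Prod.dist_eq, max_lt_iff]
    refine ⟨?_, ?_⟩
    · show dist (x.1 + ε / 2) x.1 < ε
      rw [Real.dist_eq, add_sub_cancel_left, abs_of_pos (by linarith)]
      linarith
    · show dist x.2 x.2 < ε
      rw [dist_self]; exact hε
  have h2 : (x.1, x.2 + ε / 2) ∈ K := by
    apply interior_subset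
    apply hball
    rw [Metric.mem_ball, Prod.dist_eq, max_lt_iff]
    refine ⟨?_, ?_⟩
    · show dist x.1 x.1 < ε
      rw [dist_self]; exact hε
    · show dist (x.2 + ε / 2) x.2 < ε
      rw [Real.dist_eq, add_sub_cancel_left, abs_of_pos (by linarith)]
      linarith
  intro h0
  have h3 := hall x (interior_subset hx) _ h1 _ h2
  rw [h0, abs_zero] at h3
  have h4 : cr ((x.1 + ε / 2, x.2) - x) ((x.1, x.2 + ε / 2) - x) = ε / 2 * (ε / 2) := by
    simp only [cr, Prod.fst_sub, Prod.snd_sub]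
    ring
  rw [h4] at h3
  have h5 : 0 < ε / 2 * (ε / 2) := by positivity
  rw [abs_of_pos h5] at h3
  linarith

/-- The affine normal form. -/
theorem exists_normal {K : Set (ℝ × ℝ)} (hK : IsBody K) :
    ∃ (L : (ℝ × ℝ) ≃ₗ[ℝ] (ℝ × ℝ)) (c : ℝ × ℝ), NBody (affE L c '' K) := by
  obtain ⟨a, ha, b, hb, c, hc, hD, hall⟩ := exists_max_triangle hK
  set u : ℝ × ℝ := b - a with hu
  set w : ℝ × ℝ := c - a with hw
  set D : ℝ := cr u w with hDd
  have hD' : D = u.1 * w.2 - u.2 * w.1 := rfl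
  set M : Matrix (Fin 2) (Fin 2) ℝ :=
    !![(2 * w.2 - u.2) / D, (u.1 - 2 * w.1) / D; -u.2 / D, u.1 / D] with hM
  set L0 : (ℝ × ℝ) →ₗ[ℝ] (ℝ × ℝ) :=
    Matrix.toLin (Module.Basis.finTwoProd ℝ) (Module.Basis.finTwoProd ℝ) M with hL0
  have hL0a : ∀ x : ℝ × ℝ, L0 x =
      ((2 * cr x w + cr u x) / D, cr u x / D) := by
    intro x
    rw [hL0, hM, Matrix.toLin_finTwoProd_apply]
    ext
    · show (2 * w.2 - u.2) / D * x.1 + (u.1 - 2 * w.1) / D * x.2 =
        (2 * (x.1 * w.2 - x.2 * w.1) + (u.1 * x.2 - u.2 * x.1)) / D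
      ring
    · show -u.2 / D * x.1 + u.1 / D * x.2 = (u.1 * x.2 - u.2 * x.1) / D
      ring
  have hdet : LinearMap.det L0 = 2 / D := by
    rw [hL0, LinearMap.det_toLin, hM, Matrix.det_fin_two_of]
    field_simp
    rw [hD']
    ring
  have hdet0 : LinearMap.det L0 ≠ 0 := by
    rw [hdet]; exact div_ne_zero two_ne_zero hD
  set L : (ℝ × ℝ) ≃ₗ[ℝ] (ℝ × ℝ) := L0.equivOfDetNeZero hdet0 with hL
  have hLa : ∀ x, L x = ((2 * cr x w + cr u x) / D, cr u x / D) := fun x => hL0a x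
  -- the centre: the midpoint of `a b`
  set m : ℝ × ℝ := a + (1 / 2 : ℝ) • u with hm
  have hA : ∀ q : ℝ × ℝ, affE L m q =
      (-1 + (2 * cr (q - a) w + cr u (q - a)) / D, cr u (q - a) / D) := by
    intro q
    rw [affE_apply, hLa]
    ext
    · simp only [cr, hm, Prod.fst_sub, Prod.snd_sub, Prod.fst_add, Prod.snd_add, Prod.smul_fst,
        Prod.smul_snd, smul_eq_mul]
      field_simp
      rw [hD']
      ring
    · simp only [cr, hm, Prod.fst_sub, Prod.snd_sub, Prod.fst_add, Prod.snd_add, Prod.smul_fst,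
        Prod.smul_snd, smul_eq_mul]
      ring
  refine ⟨L, m, body_image hK _, ?_, ?_, ?_, ?_⟩
  · refine ⟨a, ha, ?_⟩
    rw [hA, sub_self]
    simp [cr]
  · refine ⟨b, hb, ?_⟩
    rw [hA, ← hu]
    have e1 : cr u w = D := rfl
    have e2 : cr u u = 0 := by unfold cr; ring
    rw [e1, e2]
    ext
    · show -1 + (2 * D + 0) / D = 1
      field_simp
      ring
    · simp
  · refine ⟨c, hc, ?_⟩
    rw [hA, ← hw]
    have e1 : cr w w = 0 := by unfold cr; ring
    have e2 : cr u w = D := rfl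
    rw [e1, e2]
    ext
    · show -1 + (2 * 0 + D) / D = 0
      field_simp
      ring
    · show D / D = 1
      exact div_self hD
  · rintro _ ⟨p, hp, rfl⟩ _ ⟨q, hq, rfl⟩ _ ⟨r, hr, rfl⟩
    have h1 := hall p hp q hq r hr
    have h2 : cr (affE L m q - affE L m p) (affE L m r - affE L m p) =
        2 / D * cr (q - p) (r - p) := by
      rw [hA, hA, hA]
      simp only [cr, Prod.fst_sub, Prod.snd_sub]
      field_simp
      rw [hD']
      ring
    rw [h2, abs_mul, abs_div, abs_two]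
    have h3 : 0 < |D| := abs_pos.2 hD
    have h4 : 2 / |D| * |cr (q - p) (r - p)| ≤ 2 / |D| * |D| :=
      mul_le_mul_of_nonneg_left h1 (by positivity)
    rwa [div_mul_cancel₀ _ h3.ne'] at h4

/-- Reduction of an upper bound for `H` to normalised bodies. -/
theorem H_le_of_norm {C : ℝ} (hC : 0 ≤ C)
    (h : ∀ K : Set (ℝ × ℝ), NBody K → ∀ ε : ℝ, 0 < ε →
      ∃ P, IsPHexagon P ∧ K ⊆ P ∧ volume P ≤ ENNReal.ofReal C * volume K + ENNReal.ofReal ε) :
    H ≤ ENNReal.ofReal C := by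
  unfold H
  refine iSup₂_le fun K hK => ?_
  obtain ⟨hbody, hvol⟩ := hK
  obtain ⟨L, c, hN⟩ := exists_normal hbody
  set A := affE L c with hA
  set δ : ℝ := |LinearMap.det (L : (ℝ × ℝ) →ₗ[ℝ] (ℝ × ℝ))| with hδ
  have hδ0 : 0 < δ := by
    rw [hδ, abs_pos]
    exact (LinearEquiv.isUnit_det' L).ne_zero
  have hδE : ENNReal.ofReal δ ≠ 0 := by
    rw [Ne, ENNReal.ofReal_eq_zero, not_le]; exact hδ0
  apply ENNReal.le_of_forall_pos_le_add
  intro ε hε _
  have hε' : (0 : ℝ) < ε := hε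
  obtain ⟨P, hP, hsub, hle⟩ := h _ hN (δ * ε) (mul_pos hδ0 hε')
  have hPA : IsPHexagon (A.symm '' P) := pHex_image hP A.symm
  have hsub' : K ⊆ A.symm '' P := by
    intro q hq
    refine ⟨A q, hsub ⟨q, hq, rfl⟩, ?_⟩
    simp
  have hv1 : volume P = ENNReal.ofReal δ * volume (A.symm '' P) := by
    have e : P = A '' (A.symm '' P) := by
      rw [← image_comp]
      simp
    conv_lhs => rw [e]
    exact volume_affE L c _
  have hv2 : volume (A '' K) = ENNReal.ofReal δ * 1 := by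
    rw [hA, volume_affE, hvol]
  rw [hv1, hv2, ENNReal.ofReal_mul hδ0.le] at hle
  have hle2 : ENNReal.ofReal δ * volume (A.symm '' P) ≤
      ENNReal.ofReal δ * (ENNReal.ofReal C + ε) := by
    refine hle.trans (le_of_eq ?_)
    rw [mul_add, ENNReal.ofReal_coe_nnreal, mul_one, mul_comm (ENNReal.ofReal C)]
  have hle3 : volume (A.symm '' P) ≤ ENNReal.ofReal C + ε :=
    (ENNReal.mul_le_mul_iff_right hδE ENNReal.ofReal_ne_top).1 hle2
  refine le_trans ?_ hle3
  unfold hstar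
  exact iInf₂_le (A.symm '' P) ⟨hPA, hsub'⟩

end Pool.Agent.Helper61.PH
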