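import Pool.Agent.Helper61.PH.LemmaP
import Pool.Agent.Helper88.PH.Config

/-!
# The normalised pentagon: roof and floor (MP_8bf717_co)
-/

set_option autoImplicit false

open MeasureTheory Set intervalIntegral

namespace Pool.Agent.Helper61.PH

open Pool.Agent.Helper88.PH

/-- A linear function through the origin with value golden ratio at `b`, or the constant. -/
noncomputable def dv (x b : ℝ) : ℝ :=
  if b = 0 then Real.goldenRatio else Real.goldenRatio * x / b

/-- The roof. -/
noncomputable def Tf (τ x : ℝ) : ℝ := min (x / τ) ((1 - x) / (1 - τ))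

/-- The floor, turned upside down, of a pentagon with parameters `β, γ`. -/
noncomputable def Df (β γ x : ℝ) : ℝ :=
  min Real.goldenRatio (min (dv x β) (dv (1 - x) γ))

theorem gpos : 0 < Real.goldenRatio := Real.goldenRatio_pos

theorem dv_ge {x b : ℝ} (hb : 0 ≤ b) (hx : b ≤ x) : Real.goldenRatio ≤ dv x b := by
  unfold dv
  split_ifs with h
  · exact le_rfl
  · have hb0 : 0 < b := lt_of_le_of_ne hb (Ne.symm h)
    rw [le_div_iff₀ hb0]
    exact mul_le_mul_of_nonneg_left hx gpos.le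

theorem dv_eq {x b : ℝ} (hb : 0 < b) : dv x b = Real.goldenRatio * x / b := by
  unfold dv
  rw [if_neg hb.ne']

theorem dv_le {x b : ℝ} (hb : 0 < b) (hx : x ≤ b) : dv x b ≤ Real.goldenRatio := by
  rw [dv_eq hb, div_le_iff₀ hb]
  exact mul_le_mul_of_nonneg_left hx gpos.le

theorem dv_pos {x b : ℝ} (hb : 0 ≤ b) (hx : 0 < x) : 0 < dv x b := by
  unfold dv
  split_ifs with h
  · exact gpos
  · have hb0 : 0 < b := lt_of_le_of_ne hb (Ne.symm h)
    have := gpos
    positivity

theorem dv_nonneg {x b : ℝ} (hb : 0 ≤ b) (hx : 0 ≤ x) : 0 ≤ dv x b := by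
  unfold dv
  have := gpos
  split_ifs with h
  · exact gpos.le
  · positivity

theorem dv_cont (b : ℝ) : Continuous fun x => dv x b := by
  unfold dv
  split_ifs with h
  · exact continuous_const
  · fun_prop

theorem Tf_cont (τ : ℝ) : Continuous (Tf τ) := by
  unfold Tf
  fun_prop

theorem Df_cont (β γ : ℝ) : Continuous (Df β γ) := by
  unfold Df
  exact continuous_const.min ((dv_cont β).min ((dv_cont γ).comp (continuous_const.sub continuous_id)))

theorem Df_left {β γ x : ℝ} (hβ : 0 < β) (hγ : 0 ≤ γ) (hs : β + γ ≤ 1) (hx : x ≤ β) :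
    Df β γ x = Real.goldenRatio * x / β := by
  unfold Df
  have h1 := dv_le hβ hx
  have h2 : Real.goldenRatio ≤ dv (1 - x) γ := dv_ge hγ (by linarith)
  rw [min_eq_left (h1.trans h2), min_eq_right h1, dv_eq hβ]

theorem Df_mid {β γ x : ℝ} (hβ : 0 ≤ β) (hγ : 0 ≤ γ) (hx : β ≤ x) (hx' : x ≤ 1 - γ) :
    Df β γ x = Real.goldenRatio := by
  unfold Df
  apply min_eq_left
  rw [le_min_iff]
  exact ⟨dv_ge hβ hx, dv_ge hγ (by linarith)⟩

theorem Df_right {β γ x : ℝ} (hβ : 0 ≤ β) (hγ : 0 < γ) (hs : β + γ ≤ 1) (hx : 1 - γ ≤ x) :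
    Df β γ x = Real.goldenRatio * (1 - x) / γ := by
  unfold Df
  have h1 := dv_le hγ (x := 1 - x) (by linarith)
  have h2 : Real.goldenRatio ≤ dv x β := dv_ge hβ (by linarith)
  rw [min_eq_right (h1.trans h2), min_eq_right h1, dv_eq hγ]

theorem Df_le_dv (β γ x : ℝ) : Df β γ x ≤ dv x β :=
  (min_le_right _ _).trans (min_le_left _ _)

theorem Df_le_dv' (β γ x : ℝ) : Df β γ x ≤ dv (1 - x) γ :=
  (min_le_right _ _).trans (min_le_right _ _)

theorem Df_le (β γ x : ℝ) : Df β γ x ≤ Real.goldenRatio := min_le_left _ _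

theorem Df_pos {β γ x : ℝ} (hβ : 0 ≤ β) (hγ : 0 ≤ γ) (hx : x ∈ Ioo (0 : ℝ) 1) :
    0 < Df β γ x := by
  unfold Df
  rw [lt_min_iff, lt_min_iff]
  exact ⟨gpos, dv_pos hβ hx.1, dv_pos hγ (by linarith [hx.2])⟩

theorem Df_nonneg {β γ x : ℝ} (hβ : 0 ≤ β) (hγ : 0 ≤ γ) (hx : x ∈ Icc (0 : ℝ) 1) :
    0 ≤ Df β γ x := by
  unfold Df
  rw [le_min_iff, le_min_iff]
  exact ⟨gpos.le, dv_nonneg hβ hx.1, dv_nonneg hγ (by linarith [hx.2])⟩

/-- Supergradients of the floor. -/
theorem Df_super {β γ : ℝ} (X : ℝ) :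
    ∃ g : ℝ, ∀ x : ℝ, Df β γ x ≤ Df β γ X + g * (x - X) := by
  have h3 : Df β γ X = Real.goldenRatio ∨ Df β γ X = dv X β ∨ Df β γ X = dv (1 - X) γ := by
    unfold Df
    rcases min_choice Real.goldenRatio (min (dv X β) (dv (1 - X) γ)) with h | h
    · exact Or.inl h
    · rw [h]
      rcases min_choice (dv X β) (dv (1 - X) γ) with h' | h'
      · exact Or.inr (Or.inl h')
      · exact Or.inr (Or.inr h')
  have hc : Df β γ X = Real.goldenRatio → ∃ g : ℝ, ∀ x : ℝ, Df β γ x ≤ Df β γ X + g * (x - X) := by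
    intro h
    refine ⟨0, fun x => ?_⟩
    rw [h, zero_mul, add_zero]
    exact Df_le β γ x
  rcases h3 with h | h | h
  · exact hc h
  · by_cases hb : β = 0
    · apply hc
      rw [h]; unfold dv; rw [if_pos hb]
    · refine ⟨Real.goldenRatio / β, fun x => ?_⟩
      have h1 := Df_le_dv β γ x
      rw [h]
      refine h1.trans_eq ?_
      unfold dv
      rw [if_neg hb, if_neg hb]
      field_simp
      ring
  · by_cases hb : γ = 0
    · apply hc
      rw [h]; unfold dv; rw [if_pos hb]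
    · refine ⟨-(Real.goldenRatio / γ), fun x => ?_⟩
      have h1 := Df_le_dv' β γ x
      rw [h]
      refine h1.trans_eq ?_
      unfold dv
      rw [if_neg hb, if_neg hb]
      field_simp
      ring

theorem Tf_super {τ : ℝ} (X : ℝ) :
    ∃ g : ℝ, ∀ x : ℝ, Tf τ x ≤ Tf τ X + g * (x - X) := by
  unfold Tf
  rcases min_choice (X / τ) ((1 - X) / (1 - τ)) with h | h
  · refine ⟨1 / τ, fun x => ?_⟩
    rw [h]
    refine (min_le_left _ _).trans_eq ?_
    ring
  · refine ⟨-(1 / (1 - τ)), fun x => ?_⟩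
    rw [h]
    refine (min_le_right _ _).trans_eq ?_
    ring

theorem Tf_left {τ x : ℝ} (h0 : 0 < τ) (h1 : τ < 1) (hx : x ≤ τ) : Tf τ x = x / τ := by
  unfold Tf
  apply min_eq_left
  rw [div_le_div_iff₀ h0 (by linarith)]
  nlinarith

theorem Tf_right {τ x : ℝ} (h0 : 0 < τ) (h1 : τ < 1) (hx : τ ≤ x) :
    Tf τ x = (1 - x) / (1 - τ) := by
  unfold Tf
  apply min_eq_right
  rw [div_le_div_iff₀ (by linarith) h0]
  nlinarith

theorem Tf_pos {τ x : ℝ} (h0 : 0 < τ) (h1 : τ < 1) (hx : x ∈ Ioo (0 : ℝ) 1) : 0 < Tf τ x := by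
  unfold Tf
  rw [lt_min_iff]
  exact ⟨div_pos hx.1 h0, div_pos (by linarith [hx.2]) (by linarith)⟩

theorem int_Tf {τ : ℝ} (h0 : 0 < τ) (h1 : τ < 1) : ∫ x in (0 : ℝ)..1, Tf τ x = 1 / 2 := by
  have hτ1 : (1 - τ) ≠ 0 := by
    intro h; linarith
  have e : ∀ x : ℝ, Tf τ x = min (0 + (1 / τ) * x) (1 / (1 - τ) + (-(1 / (1 - τ))) * x) := by
    intro x
    unfold Tf
    congr 1 <;> ring
  have h := int_min (p1 := 0) (a1 := 1 / τ) (p2 := 1 / (1 - τ)) (a2 := -(1 / (1 - τ)))
    (x2 := τ) (by field_simp; ring) (by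
      have h2 : 0 < 1 / τ := by positivity
      have h3 : 0 < 1 / (1 - τ) := one_div_pos.2 (by linarith)
      linarith) h0.le h1.le
  have h4 : 2 * ∫ x in (0 : ℝ)..1, Tf τ x = 1 := by
    simp_rw [e]
    rw [h]
    field_simp
    ring
  linarith

theorem int_Df {β γ : ℝ} (hβ : 0 ≤ β) (hγ : 0 ≤ γ) (hs : β + γ ≤ 1) :
    ∫ x in (0 : ℝ)..1, Df β γ x = Real.goldenRatio * (1 - (β + γ) / 2) := by
  have hi : ∀ s t : ℝ, IntervalIntegrable (Df β γ) volume s t :=
    fun s t => (Df_cont β γ).intervalIntegrable s t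
  rw [← intervalIntegral.integral_add_adjacent_intervals (hi 0 β) (hi β 1),
    ← intervalIntegral.integral_add_adjacent_intervals (hi β (1 - γ)) (hi (1 - γ) 1)]
  have e1 : ∫ x in (0 : ℝ)..β, Df β γ x = Real.goldenRatio * β / 2 := by
    rcases hβ.eq_or_lt with h | h
    · rw [← h]; simp
    · have : ∫ x in (0 : ℝ)..β, Df β γ x = ∫ x in (0 : ℝ)..β, (0 + (Real.goldenRatio / β) * x) := by
        apply intervalIntegral.integral_congr
        intro x hx
        rw [uIcc_of_le hβ] at hx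
        show Df β γ x = 0 + (Real.goldenRatio / β) * x
        rw [Df_left h hγ hs hx.2]
        ring
      rw [this, int_affine]
      field_simp
      ring
  have e2 : ∫ x in β..(1 - γ), Df β γ x = Real.goldenRatio * (1 - γ - β) := by
    have : ∫ x in β..(1 - γ), Df β γ x = ∫ x in β..(1 - γ), Real.goldenRatio := by
      apply intervalIntegral.integral_congr
      intro x hx
      rw [uIcc_of_le (by linarith)] at hx
      exact Df_mid hβ hγ hx.1 hx.2
    rw [this, intervalIntegral.integral_const, smul_eq_mul]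
    ring
  have e3 : ∫ x in (1 - γ)..(1 : ℝ), Df β γ x = Real.goldenRatio * γ / 2 := by
    rcases hγ.eq_or_lt with h | h
    · rw [← h]; simp
    · have : ∫ x in (1 - γ)..(1 : ℝ), Df β γ x =
          ∫ x in (1 - γ)..(1 : ℝ), (Real.goldenRatio / γ + (-(Real.goldenRatio / γ)) * x) := by
        apply intervalIntegral.integral_congr
        intro x hx
        rw [uIcc_of_le (by linarith)] at hx
        show Df β γ x = Real.goldenRatio / γ + (-(Real.goldenRatio / γ)) * x
        rw [Df_right hβ h hs hx.1]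
        ring
      rw [this, int_affine]
      field_simp
      ring
  rw [e1, e2, e3]
  ring

/-- The points of the pentagon between floor and roof. -/
theorem mem_pent {τ : ℝ} (hτ : 2 - Real.goldenRatio ≤ τ) (hτ' : τ ≤ Real.goldenRatio - 1)
    (q : ℝ × ℝ) (h0 : 0 < q.1) (h1 : q.1 < 1)
    (hD : -(Df (1 - Real.goldenRatio * τ) (1 - Real.goldenRatio * (1 - τ)) q.1) < q.2)
    (hT : q.2 < Tf τ q.1) : q ∈ pent τ := by
  have hp := par_of hτ hτ'
  set β : ℝ := 1 - Real.goldenRatio * τ with hβd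
  set γ : ℝ := 1 - Real.goldenRatio * (1 - τ) with hγd
  have hβ := hp.β0
  have hγ := hp.γ0
  have hβ' := hp.βhi
  have hγ' := hp.γhi
  have hτ0 : 0 < τ := by linarith [hp.τlo]
  have hτ1 : τ < 1 := by linarith [hp.τhi]
  have hconv : Convex ℝ (pent τ) := convex_convexHull ℝ _
  have m1 : ((0 : ℝ), (0 : ℝ)) ∈ pent τ := subset_convexHull ℝ _ (by simp)
  have m2 : ((1 : ℝ), (0 : ℝ)) ∈ pent τ := subset_convexHull ℝ _ (by simp)
  have m3 : (τ, (1 : ℝ)) ∈ pent τ := subset_convexHull ℝ _ (by simp)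
  have m4 : (β, -Real.goldenRatio) ∈ pent τ := subset_convexHull ℝ _ (by simp [hβd])
  have m5 : ((1 - γ), -Real.goldenRatio) ∈ pent τ := by
    have : 1 - γ = Real.goldenRatio * (1 - τ) := by rw [hγd]; ring
    rw [this]
    exact subset_convexHull ℝ _ (by simp)
  obtain ⟨x, y⟩ := q
  simp only at h0 h1 hD hT
  -- the point of the roof
  have top : (x, Tf τ x) ∈ pent τ := by
    rcases le_total x τ with hx | hx
    · rw [Tf_left hτ0 hτ1 hx]
      have hc1 : 0 ≤ x / τ := by positivity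
      have hc2 : x / τ ≤ 1 := (div_le_one hτ0).2 hx
      have := hconv m1 m3 (a := 1 - x / τ) (b := x / τ) (by linarith) hc1 (by ring)
      convert this using 1
      ext
      · simp; field_simp
      · simp
    · rw [Tf_right hτ0 hτ1 hx]
      have hd : 0 < 1 - τ := by linarith
      have hc1 : 0 ≤ (1 - x) / (1 - τ) := div_nonneg (by linarith) hd.le
      have hc2 : (1 - x) / (1 - τ) ≤ 1 := (div_le_one hd).2 (by linarith)
      have := hconv m2 m3 (a := 1 - (1 - x) / (1 - τ)) (b := (1 - x) / (1 - τ)) (by linarith)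
        hc1 (by ring)
      convert this using 1
      ext
      · simp; field_simp; ring
      · simp
  have bot : (x, -(Df β γ x)) ∈ pent τ := by
    rcases le_total x β with hx | hx
    · have hβ0 : 0 < β := lt_of_lt_of_le h0 hx
      rw [Df_left hβ0 hγ (by linarith) hx]
      have hc1 : 0 ≤ x / β := by positivity
      have hc2 : x / β ≤ 1 := (div_le_one hβ0).2 hx
      have := hconv m1 m4 (a := 1 - x / β) (b := x / β) (by linarith) hc1 (by ring)
      convert this using 1
      ext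
      · simp; field_simp
      · simp; ring
    rcases le_total x (1 - γ) with hx2 | hx2
    · rw [Df_mid hβ hγ hx hx2]
      have hd : 0 < 1 - γ - β := by linarith
      have hc1 : 0 ≤ (x - β) / (1 - γ - β) := div_nonneg (by linarith) hd.le
      have hc2 : (x - β) / (1 - γ - β) ≤ 1 := (div_le_one hd).2 (by linarith)
      have := hconv m4 m5 (a := 1 - (x - β) / (1 - γ - β)) (b := (x - β) / (1 - γ - β))
        (by linarith) hc1 (by ring)
      convert this using 1
      ext
      · simp; field_simp; ring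
      · simp; ring
    · have hγ0 : 0 < γ := by linarith
      rw [Df_right hβ hγ0 (by linarith) hx2]
      have hc1 : 0 ≤ (1 - x) / γ := div_nonneg (by linarith) hγ0.le
      have hc2 : (1 - x) / γ ≤ 1 := (div_le_one hγ0).2 (by linarith)
      have := hconv m2 m5 (a := 1 - (1 - x) / γ) (b := (1 - x) / γ) (by linarith)
        hc1 (by ring)
      convert this using 1
      ext
      · simp; field_simp; ring
      · simp; ring
  -- the vertical segment
  have hw : 0 < Tf τ x + Df β γ x := by linarith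
  set c : ℝ := (y + Df β γ x) / (Tf τ x + Df β γ x) with hc
  have hc1 : 0 ≤ c := div_nonneg (by linarith) hw.le
  have hc2 : c ≤ 1 := (div_le_one hw).2 (by linarith)
  have := hconv bot top (a := 1 - c) (b := c) (by linarith) hc1 (by ring)
  convert this using 1
  ext
  · simp; ring
  · simp only [Prod.smul_mk, smul_eq_mul, Prod.mk_add_mk]
    rw [hc]
    field_simp
    ring

theorem ext_closed {f g : ℝ → ℝ} (hf : Continuous f) (hg : Continuous g)
    (h : ∀ x ∈ Ioo (0 : ℝ) 1, f x ≤ g x) {x : ℝ} (hx : x ∈ Icc (0 : ℝ) 1) : f x ≤ g x := by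
  have h1 : closure (Ioo (0 : ℝ) 1) ⊆ {x | f x ≤ g x} :=
    closure_minimal h (isClosed_le hf hg)
  rw [closure_Ioo (by norm_num)] at h1
  exact h1 hx

/-- The normalised pentagon gives data. -/
theorem data_pent (hP : LemmaP) (τ : ℝ) (hτ : 2 - Real.goldenRatio ≤ τ)
    (hτ' : τ ≤ Real.goldenRatio - 1) :
    ∃ T D : ℝ → ℝ, Data T D (1 / 2 + Real.goldenRatio) ∧
      ∀ q : ℝ × ℝ, 0 < q.1 → q.1 < 1 → -D q.1 < q.2 → q.2 < T q.1 → q ∈ pent τ := by
  have hp := par_of hτ hτ'
  have hβ := hp.β0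
  have hγ := hp.γ0
  have hβ' := hp.βhi
  have hγ' := hp.γhi
  have hsum := hp.sum
  have hg := hp.glo
  have hgg := hp.gg
  have hτ0 : 0 < τ := by linarith [hp.τlo]
  have hτ1 : τ < 1 := by linarith [hp.τhi]
  refine ⟨Tf τ, Df (1 - Real.goldenRatio * τ) (1 - Real.goldenRatio * (1 - τ)), ?_, ?_⟩
  · refine ⟨Tf_cont τ, Df_cont _ _, ?_, ?_, ?_, ?_, ?_, ?_⟩
    · intro x hx
      have h1 := Tf_pos hτ0 hτ1 hx
      have h2 := Df_pos hβ hγ hx
      linarith
    · intro X _
      obtain ⟨g, hg⟩ := Tf_super (τ := τ) X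
      exact ⟨g, fun x _ => hg x⟩
    · intro X _
      obtain ⟨g, hg⟩ := Df_super (β := 1 - Real.goldenRatio * τ)
        (γ := 1 - Real.goldenRatio * (1 - τ)) X
      exact ⟨g, fun x _ => hg x⟩
    · rw [int_Df hβ hγ (by linarith)]
      have h1 : Real.goldenRatio / 2 ≤ Tf τ (1 / 2) := by
        unfold Tf
        rw [le_min_iff]
        constructor
        · rw [le_div_iff₀ hτ0]
          nlinarith
        · rw [le_div_iff₀ (by linarith)]
          nlinarith
      rw [hsum]
      nlinarith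
    · rw [int_Tf hτ0 hτ1, Df_mid hβ hγ (by linarith) (by linarith)]
    · intro p1 a1 p2 a2 q1 b1 q2 b2 x2 x5 XL XR hx0 hx1 hk ha hu0 hu1 hk' hb hT hD hL hR hw hw0
      have hT' : ∀ x ∈ Icc (0 : ℝ) 1, Tf τ x ≤ min (p1 + a1 * x) (p2 + a2 * x) :=
        fun x hx => ext_closed (Tf_cont τ) (cont_min p1 a1 p2 a2) hT hx
      have hD' : ∀ x ∈ Icc (0 : ℝ) 1, Df (1 - Real.goldenRatio * τ)
          (1 - Real.goldenRatio * (1 - τ)) x ≤ min (q1 + b1 * x) (q2 + b2 * x) :=
        fun x hx => ext_closed (Df_cont _ _) (cont_min q1 b1 q2 b2) hD hx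
      apply hP τ hτ hτ' p1 a1 p2 a2 q1 b1 q2 b2 x2 x5 XL XR hx0 hx1 hk ha hu0 hu1 hk' hb
        _ _ _ _ hL hR hw hw0
      · intro x hx
        simp only [mem_insert_iff, mem_singleton_iff] at hx
        rcases hx with hx | hx
        · rw [hx]
          refine le_trans ?_ (hT' 0 (by simp))
          rw [Tf_left hτ0 hτ1 hτ0.le, zero_div]
        · rw [hx]
          refine le_trans ?_ (hT' 1 (by simp))
          rw [Tf_right hτ0 hτ1 hτ1.le, sub_self, zero_div]
      · refine le_trans ?_ (hT' τ ⟨hτ0.le, hτ1.le⟩)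
        rw [Tf_left hτ0 hτ1 le_rfl, div_self hτ0.ne']
      · intro x hx
        simp only [mem_insert_iff, mem_singleton_iff] at hx
        have hx' : x ∈ Icc (0 : ℝ) 1 := by
          rcases hx with hx | hx <;> rw [hx] <;> simp
        exact le_trans (Df_nonneg hβ hγ hx') (hD' x hx')
      · intro x hx
        simp only [mem_insert_iff, mem_singleton_iff] at hx
        have hx1 : 1 - Real.goldenRatio * τ ≤ x := by
          rcases hx with hx | hx
          · rw [hx]
          · rw [hx]; linarith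
        have hx2 : x ≤ 1 - (1 - Real.goldenRatio * (1 - τ)) := by
          rcases hx with hx | hx
          · rw [hx]; linarith
          · rw [hx]; linarith
        refine le_trans ?_ (hD' x ⟨by linarith, by linarith⟩)
        rw [Df_mid hβ hγ hx1 hx2]
  · intro q h0 h1 hD hT
    exact mem_pent hτ hτ' q h0 h1 hD hT

end Pool.Agent.Helper61.PH
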