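import Pool.Agent.Helper61.PH.DataPent

/-!
# From normalised pentagons to the lower bound for `H` (MP_8bf717_co)
-/

set_option autoImplicit false

open MeasureTheory Set
open scoped Pointwise

namespace Pool.Agent.Helper61.PH

open Pool.Agent.Helper37.PH Pool.Agent.Helper88.PH

/-! ### Affine-regular pentagons -/

/-- The cross product. -/
def cr (u w : ℝ × ℝ) : ℝ := u.1 * w.2 - u.2 * w.1

/-- Affine-regular pentagons. -/
def AR (P : Fin 5 → ℝ × ℝ) : Prop :=
  ∀ i, P (i + 2) - P (i + 4) = Real.goldenRatio • (P (i + 1) - P i)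

/-- Twice the signed area of the ear at `P i`. -/
def ear (P : Fin 5 → ℝ × ℝ) (i : Fin 5) : ℝ := cr (P (i + 1) - P (i + 4)) (P i - P (i + 4))

theorem AR.rot {P : Fin 5 → ℝ × ℝ} (h : AR P) (m : Fin 5) : AR (fun k => P (m + k)) := by
  intro i
  have := h (m + i)
  simpa only [add_assoc] using this

theorem AR.rev {P : Fin 5 → ℝ × ℝ} (h : AR P) : AR (fun k => P (-k)) := by
  intro i
  have h1 := h (-i - 1)
  have e1 : -i - 1 + 2 = -(i + 4) := (by decide : ∀ i : Fin 5, -i - 1 + 2 = -(i + 4)) i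
  have e2 : -i - 1 + 4 = -(i + 2) := (by decide : ∀ i : Fin 5, -i - 1 + 4 = -(i + 2)) i
  have e3 : -i - 1 + 1 = -i := (by decide : ∀ i : Fin 5, -i - 1 + 1 = -i) i
  have e4 : -i - 1 = -(i + 1) := (by decide : ∀ i : Fin 5, -i - 1 = -(i + 1)) i
  rw [e1, e2, e3, e4] at h1
  show P (-(i + 2)) - P (-(i + 4)) = Real.goldenRatio • (P (-(i + 1)) - P (-i))
  rw [← neg_sub, h1, ← smul_neg, neg_sub]

theorem AR.ear_succ {P : Fin 5 → ℝ × ℝ} (h : AR P) (i : Fin 5) : ear P (i + 1) = ear P i := by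
  have h1 := h i
  have e1 : i + 1 + 1 = i + 2 := (by decide : ∀ i : Fin 5, i + 1 + 1 = i + 2) i
  have e2 : i + 1 + 4 = i := (by decide : ∀ i : Fin 5, i + 1 + 4 = i) i
  unfold ear cr
  rw [e1, e2]
  have h2 := congrArg Prod.fst h1
  have h3 := congrArg Prod.snd h1
  simp only [Prod.fst_sub, Prod.snd_sub, Prod.smul_fst, Prod.smul_snd, smul_eq_mul] at h2 h3 ⊢
  linear_combination ((P (i + 1)).2 - (P i).2) * h2 - ((P (i + 1)).1 - (P i).1) * h3

theorem AR.ear_eq {P : Fin 5 → ℝ × ℝ} (h : AR P) (i : Fin 5) : ear P i = ear P 0 := by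
  have h1 := h.ear_succ 0
  have h2 := h.ear_succ 1
  have h3 := h.ear_succ 2
  have h4 := h.ear_succ 3
  have e1 : (0 : Fin 5) + 1 = 1 := rfl
  have e2 : (1 : Fin 5) + 1 = 2 := rfl
  have e3 : (2 : Fin 5) + 1 = 3 := rfl
  have e4 : (3 : Fin 5) + 1 = 4 := rfl
  rw [e1] at h1
  rw [e2] at h2
  rw [e3] at h3
  rw [e4] at h4
  fin_cases i
  · rfl
  · exact h1
  · exact h2.trans h1
  · exact h3.trans (h2.trans h1)
  · exact h4.trans (h3.trans (h2.trans h1))

theorem ear_rot {P : Fin 5 → ℝ × ℝ} (m : Fin 5) : ear (fun k => P (m + k)) 0 = ear P m := by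
  unfold ear
  simp

theorem ear_rev {P : Fin 5 → ℝ × ℝ} : ear (fun k => P (-k)) 0 = - ear P 0 := by
  unfold ear cr
  have e1 : -(0 + 1 : Fin 5) = 4 := rfl
  have e2 : -(0 + 4 : Fin 5) = 1 := rfl
  have e3 : -(0 : Fin 5) = 0 := rfl
  have e4 : (0 + 1 : Fin 5) = 1 := rfl
  have e5 : (0 + 4 : Fin 5) = 4 := rfl
  show ((P (-(0 + 1))) - P (-(0 + 4))).1 * ((P (-0)) - P (-(0 + 4))).2 -
    ((P (-(0 + 1))) - P (-(0 + 4))).2 * ((P (-0)) - P (-(0 + 4))).1 = _
  rw [e1, e2, e3, e4, e5]
  simp only [Prod.fst_sub, Prod.snd_sub]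
  ring

/-- Relabelling, so that a linear functional is smallest at `4` and largest at `1`. -/
theorem AR.normal {P : Fin 5 → ℝ × ℝ} (h : AR P) (f : (ℝ × ℝ) →ₗ[ℝ] ℝ) :
    ∃ Q : Fin 5 → ℝ × ℝ, AR Q ∧ range Q = range P ∧ |ear Q 0| = |ear P 0| ∧
      ∀ j, f (Q 4) ≤ f (Q j) ∧ f (Q j) ≤ f (Q 1) := by
  obtain ⟨m, hm⟩ := Finite.exists_max (fun j => f (P j))
  have hg := gpos
  -- the neighbours of the second neighbours
  have r1 : f (P (m + 2)) ≤ f (P (m + 1)) := by
    have h1 := congrArg f (h (m + 1))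
    have e1 : m + 1 + 2 = m + 3 := (by decide : ∀ m : Fin 5, m + 1 + 2 = m + 3) m
    have e2 : m + 1 + 4 = m := (by decide : ∀ m : Fin 5, m + 1 + 4 = m) m
    have e3 : m + 1 + 1 = m + 2 := (by decide : ∀ m : Fin 5, m + 1 + 1 = m + 2) m
    rw [e1, e2, e3, map_sub, map_smul, map_sub, smul_eq_mul] at h1
    have h2 := hm (m + 3)
    by_contra h3
    push Not at h3
    have : 0 < Real.goldenRatio * (f (P (m + 2)) - f (P (m + 1))) := mul_pos hg (by linarith)
    linarith
  have r2 : f (P (m + 3)) ≤ f (P (m + 4)) := by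
    have h1 := congrArg f (h (m + 3))
    have e1 : m + 3 + 2 = m := (by decide : ∀ m : Fin 5, m + 3 + 2 = m) m
    have e2 : m + 3 + 4 = m + 2 := (by decide : ∀ m : Fin 5, m + 3 + 4 = m + 2) m
    have e3 : m + 3 + 1 = m + 4 := (by decide : ∀ m : Fin 5, m + 3 + 1 = m + 4) m
    rw [e1, e2, e3, map_sub, map_smul, map_sub, smul_eq_mul] at h1
    have h2 := hm (m + 2)
    by_contra h3
    push Not at h3
    have : 0 < Real.goldenRatio * (f (P (m + 3)) - f (P (m + 4))) := mul_pos hg (by linarith)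
    linarith
  have hm0 := hm
  rcases le_total (f (P (m + 3))) (f (P (m + 2))) with hc | hc
  · -- minimum at `m + 3`
    refine ⟨fun k => P (m + 4 + k), h.rot (m + 4), ?_, ?_, ?_⟩
    · exact (Equiv.addLeft (m + 4)).surjective.range_comp P
    · rw [ear_rot, h.ear_eq]
    · have e1 : m + 4 + 4 = m + 3 := (by decide : ∀ m : Fin 5, m + 4 + 4 = m + 3) m
      have e2 : m + 4 + 1 = m := (by decide : ∀ m : Fin 5, m + 4 + 1 = m) m
      have hall : ∀ j, f (P (m + 3)) ≤ f (P (m + j)) := by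
        intro j
        fin_cases j
        · simpa using hm (m + 3)
        · exact hc.trans r1
        · exact hc
        · exact le_rfl
        · exact r2
      intro j
      simp only [e1, e2]
      refine ⟨?_, hm _⟩
      have := hall (4 + j)
      rwa [← add_assoc] at this
  · -- minimum at `m + 2`
    have hQ := (h.rot (m + 1)).rev
    refine ⟨fun k => P (m + 1 + -k), hQ, ?_, ?_, ?_⟩
    · exact ((Equiv.neg (Fin 5)).trans (Equiv.addLeft (m + 1))).surjective.range_comp P
    · have h1 := ear_rev (P := fun k => P (m + 1 + k))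
      rw [ear_rot, h.ear_eq] at h1
      rw [h1, abs_neg]
    · have e1 : m + 1 + -4 = m + 2 := (by decide : ∀ m : Fin 5, m + 1 + -4 = m + 2) m
      have e2 : m + 1 + -1 = m := (by decide : ∀ m : Fin 5, m + 1 + -1 = m) m
      have hall : ∀ j, f (P (m + 2)) ≤ f (P (m + j)) := by
        intro j
        fin_cases j
        · simpa using hm (m + 2)
        · exact r1
        · exact le_rfl
        · exact hc
        · exact hc.trans r2
      intro j
      simp only [e1, e2]
      refine ⟨?_, hm _⟩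
      have := hall (1 + -j)
      rwa [← add_assoc] at this

/-! ### Affine images -/

/-- The affine equivalence `q ↦ L (q - c)`. -/
noncomputable def affE (L : (ℝ × ℝ) ≃ₗ[ℝ] (ℝ × ℝ)) (c : ℝ × ℝ) : (ℝ × ℝ) ≃ᵃ[ℝ] (ℝ × ℝ) :=
  (AffineEquiv.constVAdd ℝ (ℝ × ℝ) (-c)).trans L.toAffineEquiv

theorem affE_apply (L : (ℝ × ℝ) ≃ₗ[ℝ] (ℝ × ℝ)) (c q : ℝ × ℝ) : affE L c q = L (q - c) := by
  show L (-c +ᵥ q) = L (q - c)
  rw [vadd_eq_add, neg_add_eq_sub]

theorem side_image (A : (ℝ × ℝ) ≃ᵃ[ℝ] (ℝ × ℝ)) (v : Fin 6 → ℝ × ℝ) (i : Fin 6) :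
    side (fun j => A (v j)) i = A '' side v i := by
  unfold side
  exact (image_segment ℝ A.toAffineMap (v i) (v (i + 1))).symm

theorem hex_map {v : Fin 6 → ℝ × ℝ} (h : IsHexagon v) (A : (ℝ × ℝ) ≃ᵃ[ℝ] (ℝ × ℝ)) :
    IsHexagon (fun j => A (v j)) := by
  constructor
  · intro i
    have h1 := h.corner i
    rw [← affineIndependent_iff_not_collinear_set] at h1 ⊢
    have h2 := (A.affineIndependent_iff (p := ![v i, v (i + 1), v (i + 2)])).2 h1
    have e : ![A (v i), A (v (i + 1)), A (v (i + 2))] = A ∘ ![v i, v (i + 1), v (i + 2)] := by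
      funext j
      fin_cases j <;> rfl
    rw [e]
    exact h2
  · intro i j h1 h2 h3
    rw [side_image, side_image]
    exact (disjoint_image_iff A.injective).2 (h.disj i j h1 h2 h3)

theorem hex_rot {v : Fin 6 → ℝ × ℝ} (h : IsHexagon v) (m : Fin 6) :
    IsHexagon (fun j => v (m + j)) := by
  constructor
  · intro i
    have h1 := h.corner (m + i)
    simpa only [add_assoc] using h1
  · intro i j h1 h2 h3
    have h4 := h.disj (m + i) (m + j) (by simpa using h1)
      (by rw [add_assoc]; simpa using h2) (by rw [add_assoc]; simpa using h3)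
    unfold side at h4 ⊢
    simpa only [add_assoc] using h4

theorem side_rot (v : Fin 6 → ℝ × ℝ) (m i : Fin 6) :
    side (fun j => v (m + j)) i = side v (m + i) := by
  unfold side
  simp only [add_assoc]

theorem iUnion_side_rot (v : Fin 6 → ℝ × ℝ) (m : Fin 6) :
    ⋃ i, side (fun j => v (m + j)) i = ⋃ i, side v i := by
  simp_rw [side_rot]
  exact (Equiv.addLeft m).surjective.iUnion_comp (fun i => side v i)

theorem volume_affE (L : (ℝ × ℝ) ≃ₗ[ℝ] (ℝ × ℝ)) (c : ℝ × ℝ) (R : Set (ℝ × ℝ)) :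
    volume (affE L c '' R) = ENNReal.ofReal |LinearMap.det (L : (ℝ × ℝ) →ₗ[ℝ] (ℝ × ℝ))| *
      volume R := by
  have e : affE L c '' R = (L : (ℝ × ℝ) →ₗ[ℝ] (ℝ × ℝ)) '' ((fun q => q + c) ⁻¹' R) := by
    ext x
    simp only [mem_image, mem_preimage]
    constructor
    · rintro ⟨q, hq, rfl⟩
      refine ⟨q - c, by simpa using hq, ?_⟩
      rw [affE_apply]; rfl
    · rintro ⟨q, hq, rfl⟩
      refine ⟨q + c, hq, ?_⟩
      rw [affE_apply, add_sub_cancel_right]; rfl
  rw [e, Measure.addHaar_image_linearMap, measure_preimage_add_right]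

theorem frontier_affE (L : (ℝ × ℝ) ≃ₗ[ℝ] (ℝ × ℝ)) (c : ℝ × ℝ) (R : Set (ℝ × ℝ)) :
    frontier (affE L c '' R) = affE L c '' frontier R :=
  ((affE L c).toHomeomorphOfFiniteDimensional.image_frontier R).symm

theorem compact_affE (L : (ℝ × ℝ) ≃ₗ[ℝ] (ℝ × ℝ)) (c : ℝ × ℝ) {R : Set (ℝ × ℝ)}
    (hR : IsCompact R) : IsCompact (affE L c '' R) :=
  hR.image (affE L c).toHomeomorphOfFiniteDimensional.continuous

/-- The bound for an arbitrary affine-regular pentagon inside a p-hexagon. -/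
theorem bound_of_norm (hN : NormBound) {P : Fin 5 → ℝ × ℝ} (hAR : AR P) (he : ear P 0 ≠ 0)
    {R : Set (ℝ × ℝ)} (hR : IsPHexagon R) (hsub : convexHull ℝ (range P) ⊆ R) :
    ENNReal.ofReal (|ear P 0| * (1 / 2 + Real.goldenRatio)) ≤ volume R := by
  obtain ⟨v, hv, ⟨i, hi⟩, hcpt, -, hfr⟩ := hR
  have hg := gpos
  have hgg := Real.goldenRatio_sq
  set d : ℝ × ℝ := v (i + 1) - v i with hd
  have hd0 : d ≠ 0 := by
    intro h0
    apply hv.corner i
    rw [hd, sub_eq_zero] at h0
    rw [h0, insert_eq_of_mem (by simp)]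
    exact collinear_pair ℝ _ _
  -- the functional
  set f : (ℝ × ℝ) →ₗ[ℝ] ℝ := d.2 • LinearMap.fst ℝ ℝ ℝ - d.1 • LinearMap.snd ℝ ℝ ℝ with hf
  have hfa : ∀ w : ℝ × ℝ, f w = d.2 * w.1 - d.1 * w.2 := by
    intro w; rw [hf]; simp
  obtain ⟨Q, hQ, hrange, hear, hord⟩ := hAR.normal f
  have heQ : ear Q 0 ≠ 0 := by
    intro h0
    rw [h0, abs_zero] at hear
    exact he (abs_eq_zero.1 hear.symm)
  set e : ℝ := ear Q 0 with hedef
  set u : ℝ × ℝ := Q 1 - Q 4 with hu
  set w : ℝ × ℝ := Q 0 - Q 4 with hw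
  have he1 : e = u.1 * w.2 - u.2 * w.1 := rfl
  set F : ℝ := f u with hF
  have hF0 : 0 ≤ F := by
    rw [hF, hu, map_sub]
    linarith [(hord 1).1]
  have hFa : F = d.2 * u.1 - d.1 * u.2 := hfa u
  have hFpos : 0 < F := by
    rcases hF0.eq_or_lt with h0 | h0
    · exfalso
      have h1 : f w = 0 := by
        have h2 := (hord 0).1
        have h3 := (hord 0).2
        have h4 : f (Q 1) - f (Q 4) = 0 := by rw [← map_sub, ← hu, ← hF, h0]
        rw [hw, map_sub]
        linarith
      rw [hfa] at h1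
      rw [← h0] at hFa
      have h5 : d.1 * e = 0 := by
        rw [he1]; linear_combination (-u.1) * h1 - w.1 * hFa
      have h6 : d.2 * e = 0 := by
        rw [he1]; linear_combination (-u.2) * h1 - w.2 * hFa
      apply hd0
      ext
      · simpa using (mul_eq_zero.1 h5).resolve_right heQ
      · simpa using (mul_eq_zero.1 h6).resolve_right heQ
    · exact h0
  -- the linear map
  set M : Matrix (Fin 2) (Fin 2) ℝ := !![d.2 / F, -d.1 / F; -u.2 / e, u.1 / e] with hM
  set L0 : (ℝ × ℝ) →ₗ[ℝ] (ℝ × ℝ) :=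
    Matrix.toLin (Module.Basis.finTwoProd ℝ) (Module.Basis.finTwoProd ℝ) M with hL0
  have hL0a : ∀ x : ℝ × ℝ, L0 x = ((d.2 * x.1 - d.1 * x.2) / F, (u.1 * x.2 - u.2 * x.1) / e) := by
    intro x
    rw [hL0, hM, Matrix.toLin_finTwoProd_apply]
    ext
    · show d.2 / F * x.1 + -d.1 / F * x.2 = (d.2 * x.1 - d.1 * x.2) / F
      ring
    · show -u.2 / e * x.1 + u.1 / e * x.2 = (u.1 * x.2 - u.2 * x.1) / e
      ring
  have hdet : LinearMap.det L0 = 1 / e := by
    rw [hL0, LinearMap.det_toLin, hM, Matrix.det_fin_two_of]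
    have : F ≠ 0 := hFpos.ne'
    field_simp
    rw [hFa]
  have hdet0 : LinearMap.det L0 ≠ 0 := by
    rw [hdet]; exact one_div_ne_zero heQ
  set L : (ℝ × ℝ) ≃ₗ[ℝ] (ℝ × ℝ) := L0.equivOfDetNeZero hdet0 with hL
  have hLa : ∀ x, L x = L0 x := fun x => rfl
  have hLdet : LinearMap.det (L : (ℝ × ℝ) →ₗ[ℝ] (ℝ × ℝ)) = 1 / e := hdet
  set A := affE L (Q 4) with hA
  have hAa : ∀ q : ℝ × ℝ, A q =
      ((d.2 * (q - Q 4).1 - d.1 * (q - Q 4).2) / F,
        (u.1 * (q - Q 4).2 - u.2 * (q - Q 4).1) / e) := by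
    intro q
    rw [hA, affE_apply, hLa, hL0a]
  set τ : ℝ := f w / F with hτ
  have hfw : f w = τ * F := by rw [hτ]; field_simp
  -- images of the vertices
  have a2 := hQ 0
  have a3 := hQ 4
  have x02 : (0 : Fin 5) + 2 = 2 := rfl
  have x04 : (0 : Fin 5) + 4 = 4 := rfl
  have x01 : (0 : Fin 5) + 1 = 1 := rfl
  have x42 : (4 : Fin 5) + 2 = 1 := rfl
  have x44 : (4 : Fin 5) + 4 = 3 := rfl
  have x41 : (4 : Fin 5) + 1 = 0 := rfl
  rw [x02, x04, x01] at a2
  rw [x42, x44, x41] at a3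
  have b2 : Q 2 - Q 4 = Real.goldenRatio • (u - w) := by
    rw [a2, hu, hw]; congr 1; abel
  have b3 : Q 3 - Q 4 = u - Real.goldenRatio • w := by
    rw [← a3, hu]; abel
  have i4 : A (Q 4) = (0, 0) := by
    rw [hAa]; ext <;> simp
  have i1 : A (Q 1) = (1, 0) := by
    rw [hAa, ← hu, ← hFa]
    ext
    · simp only; exact div_self hFpos.ne'
    · simp only
      have : u.1 * u.2 - u.2 * u.1 = 0 := by ring
      rw [this, zero_div]
  have i0 : A (Q 0) = (τ, 1) := by
    rw [hAa, ← hw, ← hfa]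
    ext
    · rfl
    · simp only
      rw [← he1]; exact div_self heQ
  have i2 : A (Q 2) = (Real.goldenRatio * (1 - τ), -Real.goldenRatio) := by
    rw [hAa, b2]
    ext
    · simp only [Prod.smul_fst, Prod.smul_snd, Prod.fst_sub, Prod.snd_sub, smul_eq_mul]
      rw [div_eq_iff hFpos.ne']
      have h1 := hfa w
      rw [hfw] at h1
      linear_combination (-Real.goldenRatio) * hFa + Real.goldenRatio * h1
    · simp only [Prod.smul_fst, Prod.smul_snd, Prod.fst_sub, Prod.snd_sub, smul_eq_mul]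
      rw [div_eq_iff heQ, he1]; ring
  have i3 : A (Q 3) = (1 - Real.goldenRatio * τ, -Real.goldenRatio) := by
    rw [hAa, b3]
    ext
    · simp only [Prod.smul_fst, Prod.smul_snd, Prod.fst_sub, Prod.snd_sub, smul_eq_mul]
      rw [div_eq_iff hFpos.ne']
      have h1 := hfa w
      rw [hfw] at h1
      linear_combination (-1) * hFa + Real.goldenRatio * h1
    · simp only [Prod.smul_fst, Prod.smul_snd, Prod.fst_sub, Prod.snd_sub, smul_eq_mul]
      rw [div_eq_iff heQ, he1]; ring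
  -- the range of `τ`
  have t1 : Real.goldenRatio * (1 - τ) ≤ 1 := by
    have h1 := (hord 2).2
    have h2 : f (Q 2 - Q 4) ≤ f (Q 1 - Q 4) := by rw [map_sub, map_sub]; linarith
    rw [b2, ← hu, ← hF, map_smul, map_sub, smul_eq_mul, ← hF, hfw] at h2
    have h3 : F * (Real.goldenRatio * (1 - τ)) ≤ F * 1 := by linarith
    exact le_of_mul_le_mul_left h3 hFpos
  have t2 : Real.goldenRatio * τ ≤ 1 := by
    have h1 := (hord 3).1
    have h2 : 0 ≤ f (Q 3 - Q 4) := by rw [map_sub]; linarith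
    rw [b3, map_sub, map_smul, smul_eq_mul, ← hF, hfw] at h2
    have h3 : F * (Real.goldenRatio * τ) ≤ F * 1 := by linarith
    exact le_of_mul_le_mul_left h3 hFpos
  have hg1 : 0 < Real.goldenRatio - 1 := by linarith [Real.one_lt_goldenRatio]
  have t1' : 2 - Real.goldenRatio ≤ τ := by
    have := mul_le_mul_of_nonneg_left t1 hg1.le
    nlinarith
  have t2' : τ ≤ Real.goldenRatio - 1 := by
    have := mul_le_mul_of_nonneg_left t2 hg1.le
    nlinarith
  -- the image of the hexagon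
  have hpent : pent τ ⊆ A '' R := by
    have h1 : pent τ = A '' convexHull ℝ (range Q) := by
      have h2 := AffineMap.image_convexHull A.toAffineMap (range Q)
      have h3 : (A.toAffineMap : ℝ × ℝ → ℝ × ℝ) = A := rfl
      rw [h3] at h2
      rw [h2]
      unfold pent
      congr 1
      ext x
      simp only [mem_insert_iff, mem_singleton_iff, mem_image, mem_range, exists_exists_eq_and]
      constructor
      · rintro (h | h | h | h | h)
        · exact ⟨4, by rw [i4, h]⟩
        · exact ⟨1, by rw [i1, h]⟩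
        · exact ⟨0, by rw [i0, h]⟩
        · exact ⟨3, by rw [i3, h]⟩
        · exact ⟨2, by rw [i2, h]⟩
      · rintro ⟨j, rfl⟩
        fin_cases j
        · right; right; left; exact i0
        · right; left; exact i1
        · right; right; right; right; exact i2
        · right; right; right; left; exact i3
        · left; exact i4
    rw [h1, hrange]
    exact image_mono hsub
  have hvol := hN τ t1' t2' (fun j => A (v (i + j))) (A '' R) (hex_map (hex_rot hv i) A) ?_ ?_ ?_
    (compact_affE L (Q 4) hcpt) ?_ hpent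
  · rw [hA, volume_affE, hLdet] at hvol
    have h1 : ENNReal.ofReal |e| * ENNReal.ofReal |1 / e| = 1 := by
      rw [← ENNReal.ofReal_mul (abs_nonneg _), ← abs_mul, mul_one_div_cancel heQ, abs_one,
        ENNReal.ofReal_one]
    calc ENNReal.ofReal (|ear P 0| * (1 / 2 + Real.goldenRatio))
        = ENNReal.ofReal |e| * ENNReal.ofReal (1 / 2 + Real.goldenRatio) := by
          rw [← hear, ENNReal.ofReal_mul (abs_nonneg _)]
      _ ≤ ENNReal.ofReal |e| * (ENNReal.ofReal |1 / e| * volume R) := by gcongr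
      _ = volume R := by rw [← mul_assoc, h1, one_mul]
  · -- first wall vertical
    show (A (v (i + 0))).1 = (A (v (i + 1))).1
    rw [hAa, hAa]
    simp only [add_zero]
    congr 1
    have h1 : (v (i + 1)).1 = d.1 + (v i).1 := by rw [hd]; simp
    have h2 : (v (i + 1)).2 = d.2 + (v i).2 := by rw [hd]; simp
    simp only [Prod.fst_sub, Prod.snd_sub]
    rw [h1, h2]; ring
  · show (A (v (i + 3))).1 = (A (v (i + 4))).1
    rw [hAa, hAa]
    simp only
    congr 1
    simp only [Prod.fst_sub, Prod.snd_sub]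
    rcases hi with hi | hi
    · have h1 : d.1 = (v (i + 4)).1 - (v (i + 3)).1 := by rw [hi]; simp
      have h2 : d.2 = (v (i + 4)).2 - (v (i + 3)).2 := by rw [hi]; simp
      rw [h1, h2]; ring
    · have h1 : d.1 = (v (i + 3)).1 - (v (i + 4)).1 := by rw [hi]; simp
      have h2 : d.2 = (v (i + 3)).2 - (v (i + 4)).2 := by rw [hi]; simp
      rw [h1, h2]; ring
  · show |(A (v (i + 1))).2 - (A (v (i + 0))).2| = |(A (v (i + 4))).2 - (A (v (i + 3))).2|
    rw [hAa, hAa, hAa, hAa]
    simp only [add_zero]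
    have e1 : (u.1 * (v (i + 1) - Q 4).2 - u.2 * (v (i + 1) - Q 4).1) / e -
        (u.1 * (v i - Q 4).2 - u.2 * (v i - Q 4).1) / e = (u.1 * d.2 - u.2 * d.1) / e := by
      rw [hd]; simp only [Prod.fst_sub, Prod.snd_sub]; ring
    rw [e1]
    rcases hi with hi | hi
    · have h1 : d.1 = (v (i + 4)).1 - (v (i + 3)).1 := by rw [hi]; simp
      have h2 : d.2 = (v (i + 4)).2 - (v (i + 3)).2 := by rw [hi]; simp
      congr 1
      rw [h1, h2]
      simp only [Prod.fst_sub, Prod.snd_sub]; ring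
    · have h1 : d.1 = (v (i + 3)).1 - (v (i + 4)).1 := by rw [hi]; simp
      have h2 : d.2 = (v (i + 3)).2 - (v (i + 4)).2 := by rw [hi]; simp
      rw [← abs_neg]
      congr 1
      rw [h1, h2]
      simp only [Prod.fst_sub, Prod.snd_sub]; ring
  · rw [hA, frontier_affE, hfr, image_iUnion]
    rw [iUnion_side_rot (fun j => A (v j)) i]
    simp_rw [side_image]
    rfl

/-! ### The extremal body -/

/-- The vertices of the normalised pentagon. -/
noncomputable def Pv (τ : ℝ) : Fin 5 → ℝ × ℝ :=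
  ![(τ, 1), (1, 0), (Real.goldenRatio * (1 - τ), -Real.goldenRatio),
    (1 - Real.goldenRatio * τ, -Real.goldenRatio), (0, 0)]

theorem AR_Pv (τ : ℝ) : AR (Pv τ) := by
  have hgg := Real.goldenRatio_sq
  intro i
  fin_cases i
  · show (Real.goldenRatio * (1 - τ), -Real.goldenRatio) - ((0 : ℝ), (0 : ℝ)) =
      Real.goldenRatio • (((1 : ℝ), (0 : ℝ)) - (τ, 1))
    ext
    · simp
    · simp
  · show (1 - Real.goldenRatio * τ, -Real.goldenRatio) - (τ, (1 : ℝ)) =
      Real.goldenRatio • ((Real.goldenRatio * (1 - τ), -Real.goldenRatio) - ((1 : ℝ), (0 : ℝ)))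
    ext
    · simp only [Prod.fst_sub, Prod.smul_fst, smul_eq_mul]
      linear_combination (-(1 - τ)) * hgg
    · simp only [Prod.snd_sub, Prod.smul_snd, smul_eq_mul]
      linear_combination hgg
  · show ((0 : ℝ), (0 : ℝ)) - ((1 : ℝ), (0 : ℝ)) =
      Real.goldenRatio • ((1 - Real.goldenRatio * τ, -Real.goldenRatio) -
        (Real.goldenRatio * (1 - τ), -Real.goldenRatio))
    ext
    · simp only [Prod.fst_sub, Prod.smul_fst, smul_eq_mul]
      linear_combination hgg
    · simp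
  · show (τ, (1 : ℝ)) - (Real.goldenRatio * (1 - τ), -Real.goldenRatio) =
      Real.goldenRatio • (((0 : ℝ), (0 : ℝ)) - (1 - Real.goldenRatio * τ, -Real.goldenRatio))
    ext
    · simp only [Prod.fst_sub, Prod.smul_fst, smul_eq_mul]
      linear_combination (-τ) * hgg
    · simp only [Prod.snd_sub, Prod.smul_snd, smul_eq_mul]
      linear_combination (-1) * hgg
  · show ((1 : ℝ), (0 : ℝ)) - (1 - Real.goldenRatio * τ, -Real.goldenRatio) =
      Real.goldenRatio • ((τ, (1 : ℝ)) - ((0 : ℝ), (0 : ℝ)))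
    ext
    · simp
    · simp

theorem pent_eq (τ : ℝ) : pent τ = convexHull ℝ (range (Pv τ)) := by
  unfold pent
  congr 1
  ext x
  simp only [mem_insert_iff, mem_singleton_iff, mem_range]
  constructor
  · rintro (h | h | h | h | h)
    · exact ⟨4, h.symm⟩
    · exact ⟨1, h.symm⟩
    · exact ⟨0, h.symm⟩
    · exact ⟨3, h.symm⟩
    · exact ⟨2, h.symm⟩
  · rintro ⟨j, rfl⟩
    fin_cases j
    · right; right; left; rfl
    · right; left; rfl
    · right; right; right; right; rfl
    · right; right; right; left; rfl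
    · left; rfl

theorem conc_of_super {T : ℝ → ℝ}
    (h : ∀ X : ℝ, ∃ g : ℝ, ∀ x : ℝ, T x ≤ T X + g * (x - X)) {x y a b : ℝ}
    (ha : 0 ≤ a) (hb : 0 ≤ b) (hab : a + b = 1) : a * T x + b * T y ≤ T (a * x + b * y) := by
  obtain ⟨g, hg⟩ := h (a * x + b * y)
  have h1 := mul_le_mul_of_nonneg_left (hg x) ha
  have h2 := mul_le_mul_of_nonneg_left (hg y) hb
  have h3 : b = 1 - a := by linarith
  subst h3
  linarith

/-- The pentagon lies between floor and roof. -/
theorem pent_sub {τ : ℝ} (hτ : 2 - Real.goldenRatio ≤ τ) (hτ' : τ ≤ Real.goldenRatio - 1)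
    {q : ℝ × ℝ} (hq : q ∈ pent τ) :
    0 ≤ q.1 ∧ q.1 ≤ 1 ∧ -(Df (1 - Real.goldenRatio * τ) (1 - Real.goldenRatio * (1 - τ)) q.1)
      ≤ q.2 ∧ q.2 ≤ Tf τ q.1 := by
  have hp := par_of hτ hτ'
  have hβ := hp.β0
  have hγ := hp.γ0
  have hβ' := hp.βhi
  have hγ' := hp.γhi
  have hτ0 : 0 < τ := by linarith [hp.τlo]
  have hτ1 : τ < 1 := by linarith [hp.τhi]
  set β : ℝ := 1 - Real.goldenRatio * τ with hβd
  set γ : ℝ := 1 - Real.goldenRatio * (1 - τ) with hγd
  have hg := gpos
  set S : Set (ℝ × ℝ) := {q | 0 ≤ q.1 ∧ q.1 ≤ 1 ∧ -(Df β γ q.1) ≤ q.2 ∧ q.2 ≤ Tf τ q.1} with hS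
  have hconv : Convex ℝ S := by
    intro x hx y hy a b ha hb hab
    obtain ⟨x1, x2, x3, x4⟩ := hx
    obtain ⟨y1, y2, y3, y4⟩ := hy
    have h1 := conc_of_super (T := Tf τ) (fun X => Tf_super X) (x := x.1) (y := y.1) ha hb hab
    have h2 := conc_of_super (T := Df β γ) (fun X => Df_super X) (x := x.1) (y := y.1) ha hb hab
    refine ⟨?_, ?_, ?_, ?_⟩
    · show 0 ≤ a * x.1 + b * y.1
      positivity
    · show a * x.1 + b * y.1 ≤ 1
      nlinarith
    · show -(Df β γ (a * x.1 + b * y.1)) ≤ a * x.2 + b * y.2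
      nlinarith
    · show a * x.2 + b * y.2 ≤ Tf τ (a * x.1 + b * y.1)
      nlinarith
  have hsub : pent τ ⊆ S := by
    unfold pent
    apply convexHull_min _ hconv
    have hγ1 : 1 - γ = Real.goldenRatio * (1 - τ) := by rw [hγd]; ring
    intro x hx
    simp only [mem_insert_iff, mem_singleton_iff] at hx
    rcases hx with rfl | rfl | rfl | rfl | rfl
    · refine ⟨le_rfl, zero_le_one, ?_, ?_⟩
      · show -(Df β γ 0) ≤ 0
        have := Df_nonneg hβ hγ (x := 0) (by simp)
        linarith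
      · show (0 : ℝ) ≤ Tf τ 0
        rw [Tf_left hτ0 hτ1 hτ0.le, zero_div]
    · refine ⟨zero_le_one, le_rfl, ?_, ?_⟩
      · show -(Df β γ 1) ≤ 0
        have := Df_nonneg hβ hγ (x := 1) (by simp)
        linarith
      · show (0 : ℝ) ≤ Tf τ 1
        rw [Tf_right hτ0 hτ1 hτ1.le, sub_self, zero_div]
    · refine ⟨hτ0.le, hτ1.le, ?_, ?_⟩
      · show -(Df β γ τ) ≤ 1
        have := Df_nonneg hβ hγ (x := τ) ⟨hτ0.le, hτ1.le⟩
        linarith
      · show (1 : ℝ) ≤ Tf τ τ
        rw [Tf_left hτ0 hτ1 le_rfl, div_self hτ0.ne']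
    · refine ⟨hβ, by show β ≤ 1; linarith, ?_, ?_⟩
      · show -(Df β γ β) ≤ -Real.goldenRatio
        rw [Df_mid hβ hγ le_rfl (by linarith)]
      · show -Real.goldenRatio ≤ Tf τ β
        have h1 : 0 ≤ Tf τ β := by
          unfold Tf
          rw [le_min_iff]
          exact ⟨div_nonneg hβ hτ0.le, div_nonneg (by linarith) (by linarith)⟩
        linarith
    · rw [← hγ1]
      refine ⟨by show 0 ≤ 1 - γ; linarith, by show 1 - γ ≤ 1; linarith, ?_, ?_⟩
      · show -(Df β γ (1 - γ)) ≤ -Real.goldenRatio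
        rw [Df_mid hβ hγ (by linarith) le_rfl]
      · show -Real.goldenRatio ≤ Tf τ (1 - γ)
        have h1 : 0 ≤ Tf τ (1 - γ) := by
          unfold Tf
          rw [le_min_iff]
          exact ⟨div_nonneg (by linarith) hτ0.le, div_nonneg (by linarith) (by linarith)⟩
        linarith
  exact hsub hq

theorem vol_pent_le {τ : ℝ} (hτ : 2 - Real.goldenRatio ≤ τ) (hτ' : τ ≤ Real.goldenRatio - 1) :
    volume (pent τ) ≤ ENNReal.ofReal (1 + Real.goldenRatio / 2) := by
  have hp := par_of hτ hτ'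
  have hβ := hp.β0
  have hγ := hp.γ0
  have hβ' := hp.βhi
  have hγ' := hp.γhi
  have hsum := hp.sum
  have hgg := hp.gg
  have hτ0 : 0 < τ := by linarith [hp.τlo]
  have hτ1 : τ < 1 := by linarith [hp.τhi]
  set β : ℝ := 1 - Real.goldenRatio * τ with hβd
  set γ : ℝ := 1 - Real.goldenRatio * (1 - τ) with hγd
  have hconv : Convex ℝ (pent τ) := convex_convexHull ℝ _
  -- the interior is between the graphs
  have hsub : interior (pent τ) ⊆
      regionBetween (fun x => -(Df β γ x)) (Tf τ) (Icc (0 : ℝ) 1) := by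
    intro q hq
    have hq0 := pent_sub hτ hτ' (interior_subset hq)
    have hcont : Continuous fun t : ℝ => (q.1, q.2 + t) := by fun_prop
    have hnhds : (fun t : ℝ => (q.1, q.2 + t)) ⁻¹' interior (pent τ) ∈ nhds (0 : ℝ) := by
      apply hcont.continuousAt.preimage_mem_nhds
      apply isOpen_interior.mem_nhds
      simpa using hq
    obtain ⟨ε, hε, hball⟩ := Metric.mem_nhds_iff.1 hnhds
    have hpos : (q.1, q.2 + ε / 2) ∈ interior (pent τ) := by
      have : ε / 2 ∈ Metric.ball (0 : ℝ) ε := by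
        rw [Metric.mem_ball, Real.dist_eq, sub_zero, abs_of_pos (by linarith)]
        linarith
      exact hball this
    have hneg : (q.1, q.2 + -(ε / 2)) ∈ interior (pent τ) := by
      have : -(ε / 2) ∈ Metric.ball (0 : ℝ) ε := by
        rw [Metric.mem_ball, Real.dist_eq, sub_zero, abs_neg, abs_of_pos (by linarith)]
        linarith
      exact hball this
    have h1 := (pent_sub hτ hτ' (interior_subset hpos)).2.2.2
    have h2 := (pent_sub hτ hτ' (interior_subset hneg)).2.2.1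
    simp only at h1 h2
    refine ⟨⟨hq0.1, hq0.2.1⟩, ?_, ?_⟩
    · show -(Df β γ q.1) < q.2
      linarith
    · show q.2 < Tf τ q.1
      linarith
  have hnull : volume (frontier (pent τ)) = 0 := hconv.addHaar_frontier volume
  have hle : volume (pent τ) ≤ volume (interior (pent τ)) := by
    calc volume (pent τ) ≤ volume (interior (pent τ) ∪ frontier (pent τ)) := by
          apply measure_mono
          rw [← closure_eq_interior_union_frontier]
          exact subset_closure
      _ ≤ volume (interior (pent τ)) + volume (frontier (pent τ)) := measure_union_le _ _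
      _ = volume (interior (pent τ)) := by rw [hnull, add_zero]
  refine hle.trans ((measure_mono hsub).trans ?_)
  have hcD := Df_cont β γ
  have hcT := Tf_cont τ
  have hreg := volume_regionBetween_eq_integral (μ := (volume : Measure ℝ))
    (f := fun x => -(Df β γ x)) (g := Tf τ) (s := Icc (0 : ℝ) 1)
    (hcD.neg.continuousOn.integrableOn_Icc) (hcT.continuousOn.integrableOn_Icc)
    measurableSet_Icc (by
      intro x hx
      have h1 := Df_nonneg hβ hγ hx
      have h2 : 0 ≤ Tf τ x := by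
        unfold Tf
        rw [le_min_iff]
        exact ⟨div_nonneg hx.1 hτ0.le, div_nonneg (by linarith [hx.2]) (by linarith)⟩
      show -(Df β γ x) ≤ Tf τ x
      linarith)
  rw [Measure.volume_eq_prod, hreg]
  apply ENNReal.ofReal_le_ofReal
  have e1 : ∫ y in Icc (0 : ℝ) 1, (Tf τ - fun x => -(Df β γ x)) y =
      ∫ y in (0 : ℝ)..1, (Tf τ y + Df β γ y) := by
    rw [intervalIntegral.integral_of_le zero_le_one, integral_Icc_eq_integral_Ioc]
    apply integral_congr_ae
    filter_upwards with y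
    simp
  rw [e1, intervalIntegral.integral_add (hcT.intervalIntegrable 0 1)
    (hcD.intervalIntegrable 0 1), int_Tf hτ0 hτ1, int_Df hβ hγ (by linarith), hsum]
  nlinarith

theorem pent_body {τ : ℝ} (hτ : 2 - Real.goldenRatio ≤ τ) (hτ' : τ ≤ Real.goldenRatio - 1) :
    IsBody (pent τ) := by
  have hp := par_of hτ hτ'
  have hβ := hp.β0
  have hγ := hp.γ0
  have hτ0 : 0 < τ := by linarith [hp.τlo]
  have hτ1 : τ < 1 := by linarith [hp.τhi]
  refine ⟨convex_convexHull ℝ _, ?_, ?_⟩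
  · rw [pent_eq]
    exact (finite_range (Pv τ)).isCompact_convexHull ℝ
  · set β : ℝ := 1 - Real.goldenRatio * τ with hβd
    set γ : ℝ := 1 - Real.goldenRatio * (1 - τ) with hγd
    have hcD := Df_cont β γ
    have hcT := Tf_cont τ
    set U : Set (ℝ × ℝ) := {q | 0 < q.1 ∧ q.1 < 1 ∧ -(Df β γ q.1) < q.2 ∧ q.2 < Tf τ q.1} with hU
    have hopen : IsOpen U := by
      have h1 : IsOpen {q : ℝ × ℝ | 0 < q.1} := isOpen_lt continuous_const continuous_fst
      have h2 : IsOpen {q : ℝ × ℝ | q.1 < 1} := isOpen_lt continuous_fst continuous_const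
      have h3 : IsOpen {q : ℝ × ℝ | -(Df β γ q.1) < q.2} :=
        isOpen_lt (hcD.comp continuous_fst).neg continuous_snd
      have h4 : IsOpen {q : ℝ × ℝ | q.2 < Tf τ q.1} :=
        isOpen_lt continuous_snd (hcT.comp continuous_fst)
      exact h1.inter (h2.inter (h3.inter h4))
    have hsub : U ⊆ pent τ := by
      intro q hq
      exact mem_pent hτ hτ' q hq.1 hq.2.1 hq.2.2.1 hq.2.2.2
    refine ⟨((1 / 2 : ℝ), (0 : ℝ)), interior_maximal hsub hopen ?_⟩
    have h12 : (1 / 2 : ℝ) ∈ Ioo (0 : ℝ) 1 := by constructor <;> norm_num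
    refine ⟨h12.1, h12.2, ?_, ?_⟩
    · show -(Df β γ (1 / 2)) < 0
      linarith [Df_pos hβ hγ h12]
    · exact Tf_pos hτ0 hτ1 h12

/-- The lower bound for `H`. -/
theorem H_lower (hN : NormBound) :
    ENNReal.ofReal ((5 + 3 * Real.sqrt 5) / 10) ≤ H := by
  have hgg := Real.goldenRatio_sq
  have hg1 := Real.one_lt_goldenRatio
  have hglo : 1.618 < Real.goldenRatio := by nlinarith
  have hghi : Real.goldenRatio < 1.6181 := by nlinarith
  have hτ : 2 - Real.goldenRatio ≤ (1 / 2 : ℝ) := by linarith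
  have hτ' : (1 / 2 : ℝ) ≤ Real.goldenRatio - 1 := by linarith
  have hbody := pent_body hτ hτ'
  have hvle := vol_pent_le hτ hτ'
  set K0 : Set (ℝ × ℝ) := pent (1 / 2) with hK0
  have hfin : volume K0 ≠ ⊤ := ne_top_of_le_ne_top ENNReal.ofReal_ne_top hvle
  have hpos : volume K0 ≠ 0 := by
    intro h0
    have h1 := isOpen_interior.measure_pos volume hbody.interior_nonempty
    have h2 := measure_mono (μ := volume) (interior_subset (s := K0))
    rw [h0] at h2
    exact absurd h1 (not_lt.2 h2)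
  set V : ℝ := (volume K0).toReal with hV
  have hVpos : 0 < V := ENNReal.toReal_pos hpos hfin
  have hVle : V ≤ 1 + Real.goldenRatio / 2 := by
    rw [hV]
    exact ENNReal.toReal_le_of_le_ofReal (by linarith) hvle
  set c : ℝ := 1 / Real.sqrt V with hc
  have hsV : 0 < Real.sqrt V := Real.sqrt_pos.2 hVpos
  have hc0 : 0 < c := one_div_pos.2 hsV
  have hc2 : c ^ 2 = 1 / V := by
    rw [hc, div_pow, one_pow, Real.sq_sqrt hVpos.le]
  have hKvol : volume (c • K0) = 1 := by
    rw [Measure.addHaar_smul]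
    have hfr : Module.finrank ℝ (ℝ × ℝ) = 2 := by simp
    rw [hfr, hc2, abs_of_pos (one_div_pos.2 hVpos)]
    rw [← ENNReal.ofReal_toReal hfin, ← hV, ← ENNReal.ofReal_mul (by positivity)]
    rw [one_div_mul_cancel hVpos.ne', ENNReal.ofReal_one]
  have hKbody : IsBody (c • K0) := by
    refine ⟨hbody.convex.smul c, hbody.compact.smul c, ?_⟩
    rw [interior_smul₀ hc0.ne']
    exact hbody.interior_nonempty.smul_set
  have hbound : ENNReal.ofReal ((5 + 3 * Real.sqrt 5) / 10) ≤ hstar (c • K0) := by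
    unfold hstar
    refine le_iInf₂ fun R hR => ?_
    have hAR : AR (fun j => c • Pv (1 / 2) j) := by
      intro i
      have := AR_Pv (1 / 2) i
      show c • Pv (1 / 2) (i + 2) - c • Pv (1 / 2) (i + 4) =
        Real.goldenRatio • (c • Pv (1 / 2) (i + 1) - c • Pv (1 / 2) i)
      rw [← smul_sub, this, ← smul_sub, smul_comm]
    have hear : ear (fun j => c • Pv (1 / 2) j) 0 = c ^ 2 := by
      show cr (c • ((1 : ℝ), (0 : ℝ)) - c • ((0 : ℝ), (0 : ℝ)))
        (c • ((1 / 2 : ℝ), (1 : ℝ)) - c • ((0 : ℝ), (0 : ℝ))) = c ^ 2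
      unfold cr
      simp
      ring
    have hsub : convexHull ℝ (range fun j => c • Pv (1 / 2) j) ⊆ R := by
      have e : (range fun j => c • Pv (1 / 2) j) = c • range (Pv (1 / 2)) := by
        rw [← image_smul, ← range_comp]; rfl
      rw [e, convexHull_smul, ← pent_eq]
      exact hR.2
    have h1 := bound_of_norm hN hAR (by rw [hear]; positivity) hR.1 hsub
    rw [hear] at h1
    refine le_trans (ENNReal.ofReal_le_ofReal ?_) h1
    rw [abs_of_pos (by positivity), hc2]
    have h5 : Real.sqrt 5 = 2 * Real.goldenRatio - 1 := by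
      unfold Real.goldenRatio; ring
    rw [h5, one_div_mul_eq_div, le_div_iff₀ hVpos]
    nlinarith
  unfold H
  exact le_iSup₂_of_le (c • K0) ⟨hKbody, hKvol⟩ hbound

end Pool.Agent.Helper61.PH
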