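import Pool.Agent.Helper61.PH.LemmaPCore
import Pool.Agent.Helper88.PH.StP

/-!
# Lemma P (MP_8bf717_co)
-/

set_option autoImplicit false

open MeasureTheory Set intervalIntegral

namespace Pool.Agent.Helper61.PH

theorem par_of {τ : ℝ} (h1 : 2 - Real.goldenRatio ≤ τ) (h2 : τ ≤ Real.goldenRatio - 1) :
    Par Real.goldenRatio (1 - Real.goldenRatio * τ) (1 - Real.goldenRatio * (1 - τ)) τ := by
  have hgg := Real.goldenRatio_sq
  have hg := Real.one_lt_goldenRatio
  refine ⟨hgg, hg, ?_, ?_, ?_, ?_⟩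
  · nlinarith
  · nlinarith
  · ring
  · linear_combination (-τ) * hgg

theorem min_left {p1 a1 p2 a2 x2 x : ℝ} (hk : p1 + a1 * x2 = p2 + a2 * x2) (ha : a2 ≤ a1)
    (hx : x ≤ x2) : min (p1 + a1 * x) (p2 + a2 * x) = p1 + a1 * x := by
  apply min_eq_left
  nlinarith

theorem min_right {p1 a1 p2 a2 x2 x : ℝ} (hk : p1 + a1 * x2 = p2 + a2 * x2) (ha : a2 ≤ a1)
    (hx : x2 ≤ x) : min (p1 + a1 * x) (p2 + a2 * x) = p2 + a2 * x := by
  apply min_eq_right
  nlinarith

theorem cont_min (p1 a1 p2 a2 : ℝ) :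
    Continuous fun x : ℝ => min (p1 + a1 * x) (p2 + a2 * x) := by fun_prop

theorem int_affine (p a s t : ℝ) :
    ∫ x in s..t, (p + a * x) = (t - s) * ((p + a * s) + (p + a * t)) / 2 := by
  rw [intervalIntegral.integral_add (by simp) (by
    apply Continuous.intervalIntegrable; fun_prop)]
  rw [intervalIntegral.integral_const, intervalIntegral.integral_const_mul, integral_id]
  simp only [smul_eq_mul]
  ring

/-- Twice the integral over `[0, 1]` of a minimum of two affine functions. -/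
theorem int_min {p1 a1 p2 a2 x2 : ℝ} (hk : p1 + a1 * x2 = p2 + a2 * x2) (ha : a2 ≤ a1)
    (h0 : 0 ≤ x2) (h1 : x2 ≤ 1) :
    2 * ∫ x in (0 : ℝ)..1, min (p1 + a1 * x) (p2 + a2 * x) =
      x2 * p1 + (p1 + a1 * x2) + (1 - x2) * (p2 + a2) := by
  have hi : ∀ s t : ℝ, IntervalIntegrable (fun x : ℝ => min (p1 + a1 * x) (p2 + a2 * x))
      volume s t := fun s t => (cont_min p1 a1 p2 a2).intervalIntegrable s t
  rw [← intervalIntegral.integral_add_adjacent_intervals (hi 0 x2) (hi x2 1)]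
  have e1 : ∫ x in (0 : ℝ)..x2, min (p1 + a1 * x) (p2 + a2 * x) =
      ∫ x in (0 : ℝ)..x2, (p1 + a1 * x) := by
    apply intervalIntegral.integral_congr
    intro x hx
    rw [uIcc_of_le h0] at hx
    exact min_left hk ha hx.2
  have e2 : ∫ x in x2..(1 : ℝ), min (p1 + a1 * x) (p2 + a2 * x) =
      ∫ x in x2..(1 : ℝ), (p2 + a2 * x) := by
    apply intervalIntegral.integral_congr
    intro x hx
    rw [uIcc_of_le h1] at hx
    exact min_right hk ha hx.1
  rw [e1, e2, int_affine, int_affine]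
  linear_combination (x2 - 1) * hk

/-- Lemma P when the hexagon is higher over `1` than over `0`. -/
theorem half {τ : ℝ} (hτ : 2 - Real.goldenRatio ≤ τ) (hτ' : τ ≤ Real.goldenRatio - 1)
    {p1 a1 p2 a2 q1 b1 q2 b2 x2 x5 XL XR : ℝ}
    (hx0 : 0 ≤ x2) (hx1 : x2 ≤ 1) (hk : p1 + a1 * x2 = p2 + a2 * x2) (ha : a2 ≤ a1)
    (hu0 : 0 ≤ x5) (hu1 : x5 ≤ 1) (hk' : q1 + b1 * x5 = q2 + b2 * x5) (hb : b2 ≤ b1)
    (hr : ∀ x ∈ ({0, 1} : Set ℝ), 0 ≤ min (p1 + a1 * x) (p2 + a2 * x))
    (hrτ : 1 ≤ min (p1 + a1 * τ) (p2 + a2 * τ))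
    (hd : ∀ x ∈ ({0, 1} : Set ℝ), 0 ≤ min (q1 + b1 * x) (q2 + b2 * x))
    (hdβ : ∀ x ∈ ({1 - Real.goldenRatio * τ, Real.goldenRatio * (1 - τ)} : Set ℝ),
      Real.goldenRatio ≤ min (q1 + b1 * x) (q2 + b2 * x))
    (hL : XL ≤ 0) (hR : 1 ≤ XR)
    (hw : (p1 + a1 * XL) + (q1 + b1 * XL) = (p2 + a2 * XR) + (q2 + b2 * XR))
    (hw0 : 0 ≤ (p1 + a1 * XL) + (q1 + b1 * XL))
    (hle : p1 + q1 ≤ (p2 + a2) + (q2 + b2)) :
    1 / 2 + Real.goldenRatio ≤
      ∫ x in XL..XR, (min (p1 + a1 * x) (p2 + a2 * x) + min (q1 + b1 * x) (q2 + b2 * x)) := by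
  have hp := par_of hτ hτ'
  have r0 := hr 0 (by simp)
  have r1 := hr 1 (by simp)
  have d0 := hd 0 (by simp)
  have d1 := hd 1 (by simp)
  have dβ := hdβ _ (mem_insert _ _)
  have dγ := hdβ (Real.goldenRatio * (1 - τ)) (by simp)
  rw [le_min_iff] at r0 r1 d0 d1 dβ dγ hrτ
  have hRoof : Roof τ x2 (p1 + a1 * x2) a1 (-a2) := by
    refine ⟨hx0, hx1, by linarith, ?_, ?_, ?_, ?_⟩
    · linarith [hrτ.1]
    · rw [hk]; linarith [hrτ.2]
    · linarith [r0.1]
    · rw [hk]; linarith [r1.2]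
  have hFloor : Floor Real.goldenRatio (1 - Real.goldenRatio * τ)
      (1 - Real.goldenRatio * (1 - τ)) x5 (q1 + b1 * x5) b1 (-b2) := by
    refine ⟨hu0, hu1, by linarith, ?_, ?_, ?_, ?_, ?_, ?_⟩
    · linarith [dβ.1]
    · rw [hk']; linarith [dβ.2]
    · linarith [dγ.1]
    · rw [hk']; linarith [dγ.2]
    · linarith [d0.1]
    · rw [hk']; linarith [d1.2]
  -- the heights
  set h : ℝ := (p2 + a2 * XR) + (q2 + b2 * XR) with hh
  have hh0 : 0 ≤ h := by rw [← hw]; exact hw0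
  have hhw : h ≤ p1 + q1 := by
    rcases le_total 0 (a1 + b1) with hs | hs
    · rw [← hw]
      nlinarith
    · have h1 : (a1 + b1) * XR ≤ 0 := mul_nonpos_of_nonpos_of_nonneg hs (by linarith)
      have h2 : 0 ≤ (a1 - a2) * (XR - x2) := mul_nonneg (by linarith) (by linarith)
      have h3 : 0 ≤ (b1 - b2) * (XR - x5) := mul_nonneg (by linarith) (by linarith)
      rw [hh]
      nlinarith
  set E : ℝ := (XR - 1) * (((p2 + a2) + (q2 + b2)) + h) with hE
  have hw1 : 0 ≤ (p2 + a2) + (q2 + b2) := by linarith [r1.2, d1.2]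
  have hE0 : 0 ≤ E := mul_nonneg (by linarith) (by linarith)
  have hy1 : (p1 + a1 * x2) - -a2 * (1 - x2) = p2 + a2 := by rw [hk]; ring
  have hv1 : (q1 + b1 * x5) - -b2 * (1 - x5) = q2 + b2 := by rw [hk']; ring
  have hy0 : (p1 + a1 * x2) - a1 * x2 = p1 := by ring
  have hv0 : (q1 + b1 * x5) - b1 * x5 = q1 := by ring
  have hcore := core (E := E) hp hRoof hFloor hE0
  rw [hy1, hv1, hy0, hv0] at hcore
  have hcore' := hcore hle (by
    have e : (-a2 + -b2) * E = ((p2 + a2) + (q2 + b2)) ^ 2 - h ^ 2 := by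
      rw [hE, hh]; ring
    rw [e]
    nlinarith)
  -- the integral
  have hi1 : ∀ s t : ℝ, IntervalIntegrable (fun x : ℝ => min (p1 + a1 * x) (p2 + a2 * x))
      volume s t := fun s t => (cont_min p1 a1 p2 a2).intervalIntegrable s t
  have hi2 : ∀ s t : ℝ, IntervalIntegrable (fun x : ℝ => min (q1 + b1 * x) (q2 + b2 * x))
      volume s t := fun s t => (cont_min q1 b1 q2 b2).intervalIntegrable s t
  have hi : ∀ s t : ℝ, IntervalIntegrable (fun x : ℝ => min (p1 + a1 * x) (p2 + a2 * x)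
      + min (q1 + b1 * x) (q2 + b2 * x)) volume s t := fun s t => (hi1 s t).add (hi2 s t)
  rw [← intervalIntegral.integral_add_adjacent_intervals (hi XL 0) (hi 0 XR),
    ← intervalIntegral.integral_add_adjacent_intervals (hi 0 1) (hi 1 XR)]
  have i1 : 0 ≤ ∫ x in XL..0, (min (p1 + a1 * x) (p2 + a2 * x)
      + min (q1 + b1 * x) (q2 + b2 * x)) := by
    apply intervalIntegral.integral_nonneg hL
    intro x hx
    rw [min_left hk ha (by linarith [hx.2]), min_left hk' hb (by linarith [hx.2])]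
    have h1 : 0 ≤ p1 + q1 := by linarith [r0.1, d0.1]
    rcases le_total 0 (a1 + b1) with hs | hs
    · nlinarith [hx.1, mul_nonneg hs (sub_nonneg.2 hx.1)]
    · nlinarith [hx.2, mul_nonneg (neg_nonneg.2 hs) (neg_nonneg.2 hx.2)]
  have i2 : 2 * ∫ x in (0 : ℝ)..1, (min (p1 + a1 * x) (p2 + a2 * x)
      + min (q1 + b1 * x) (q2 + b2 * x)) =
      (x2 * p1 + (p1 + a1 * x2) + (1 - x2) * (p2 + a2))
      + (x5 * q1 + (q1 + b1 * x5) + (1 - x5) * (q2 + b2)) := by
    rw [intervalIntegral.integral_add (hi1 0 1) (hi2 0 1), mul_add, int_min hk ha hx0 hx1,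
      int_min hk' hb hu0 hu1]
  have i3 : 2 * ∫ x in (1 : ℝ)..XR, (min (p1 + a1 * x) (p2 + a2 * x)
      + min (q1 + b1 * x) (q2 + b2 * x)) = E := by
    have e : ∫ x in (1 : ℝ)..XR, (min (p1 + a1 * x) (p2 + a2 * x)
      + min (q1 + b1 * x) (q2 + b2 * x)) = ∫ x in (1 : ℝ)..XR,
        ((p2 + q2) + (a2 + b2) * x) := by
      apply intervalIntegral.integral_congr
      intro x hx
      rw [uIcc_of_le hR] at hx
      show min (p1 + a1 * x) (p2 + a2 * x) + min (q1 + b1 * x) (q2 + b2 * x) =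
        (p2 + q2) + (a2 + b2) * x
      rw [min_right hk ha (by linarith [hx.1]), min_right hk' hb (by linarith [hx.1])]
      ring
    rw [e, int_affine, hE, hh]
    ring
  linarith

/-- Lemma P. -/
theorem lemmaP : Pool.Agent.Helper88.PH.LemmaP := by
  intro τ hτ hτ' p1 a1 p2 a2 q1 b1 q2 b2 x2 x5 XL XR hx0 hx1 hk ha hu0 hu1 hk' hb hr hrτ hd hdβ
    hL hR hw hw0
  rcases le_total (p1 + q1) ((p2 + a2) + (q2 + b2)) with hle | hle
  · exact half hτ hτ' hx0 hx1 hk ha hu0 hu1 hk' hb hr hrτ hd hdβ hL hR hw hw0 hle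
  · have r0 := hr 0 (by simp)
    have r1 := hr 1 (by simp)
    have d0 := hd 0 (by simp)
    have d1 := hd 1 (by simp)
    have dβ := hdβ _ (mem_insert _ _)
    have dγ := hdβ (Real.goldenRatio * (1 - τ)) (by simp)
    rw [le_min_iff] at r0 r1 d0 d1 dβ dγ hrτ
    have key := half (τ := 1 - τ) (p1 := p2 + a2) (a1 := -a2) (p2 := p1 + a1) (a2 := -a1)
      (q1 := q2 + b2) (b1 := -b2) (q2 := q1 + b1) (b2 := -b1) (x2 := 1 - x2) (x5 := 1 - x5)
      (XL := 1 - XR) (XR := 1 - XL) (by linarith) (by linarith) (by linarith) (by linarith)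
      (by linarith) (by linarith) (by linarith) (by linarith) (by linarith) (by linarith)
      (by
        intro x hx
        simp only [mem_insert_iff, mem_singleton_iff] at hx
        rw [le_min_iff]
        rcases hx with hx | hx <;> rw [hx] <;> constructor <;> linarith [r0.1, r0.2, r1.1, r1.2])
      (by rw [le_min_iff]; constructor <;> linarith [hrτ.1, hrτ.2])
      (by
        intro x hx
        simp only [mem_insert_iff, mem_singleton_iff] at hx
        rw [le_min_iff]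
        rcases hx with hx | hx <;> rw [hx] <;> constructor <;> linarith [d0.1, d0.2, d1.1, d1.2])
      (by
        intro x hx
        simp only [mem_insert_iff, mem_singleton_iff] at hx
        rw [le_min_iff]
        rcases hx with hx | hx <;> rw [hx] <;> constructor
        · have := dγ.2; nlinarith
        · have := dγ.1; nlinarith
        · have := dβ.2; nlinarith
        · have := dβ.1; nlinarith)
      (by linarith) (by linarith) (by linarith) (by linarith) (by linarith)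
    have e := intervalIntegral.integral_comp_sub_left (a := XL) (b := XR)
      (fun x : ℝ => min ((p2 + a2) + -a2 * x) ((p1 + a1) + -a1 * x)
        + min ((q2 + b2) + -b2 * x) ((q1 + b1) + -b1 * x)) 1
    rw [← e] at key
    refine key.trans_eq ?_
    apply intervalIntegral.integral_congr
    intro x _
    show min ((p2 + a2) + -a2 * (1 - x)) ((p1 + a1) + -a1 * (1 - x))
        + min ((q2 + b2) + -b2 * (1 - x)) ((q1 + b1) + -b1 * (1 - x)) =
      min (p1 + a1 * x) (p2 + a2 * x) + min (q1 + b1 * x) (q2 + b2 * x)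
    have e1 : (p2 + a2) + -a2 * (1 - x) = p2 + a2 * x := by ring
    have e2 : (p1 + a1) + -a1 * (1 - x) = p1 + a1 * x := by ring
    have e3 : (q2 + b2) + -b2 * (1 - x) = q2 + b2 * x := by ring
    have e4 : (q1 + b1) + -b1 * (1 - x) = q1 + b1 * x := by ring
    rw [e1, e2, e3, e4, min_comm (p2 + a2 * x), min_comm (q2 + b2 * x)]

end Pool.Agent.Helper61.PH
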