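import Mathlib

/-!
# The area estimate for a circumscribed p-hexagon: algebraic part (MP_8bf717_co)
-/

set_option autoImplicit false

namespace Pool.Agent.Helper61.PH

/-- The constants: `g` is the golden ratio, `β, γ ≥ 0` with `β + γ = 2 - g`,
`τ = (g - 1)(1 - β)`. -/
structure Par (g β γ τ : ℝ) : Prop where
  gg : g ^ 2 = g + 1
  g1 : 1 < g
  β0 : 0 ≤ β
  γ0 : 0 ≤ γ
  sum : β + γ = 2 - g
  τ : τ = (g - 1) * (1 - β)

namespace Par

variable {g β γ τ : ℝ}

theorem glo (h : Par g β γ τ) : 1.618 < g := by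
  have h1 := h.gg
  have h2 := h.g1
  nlinarith

theorem ghi (h : Par g β γ τ) : g < 1.6181 := by
  have h1 := h.gg
  have h2 := h.g1
  nlinarith

theorem βhi (h : Par g β γ τ) : β < 0.382 := by
  have h1 := h.glo
  have h2 := h.γ0
  have h3 := h.sum
  linarith

theorem γhi (h : Par g β γ τ) : γ < 0.382 := by
  have h1 := h.glo
  have h2 := h.β0
  have h3 := h.sum
  linarith

theorem τeq (h : Par g β γ τ) : g * τ = 1 - β := by
  have h1 := h.gg
  rw [h.τ]
  linear_combination (1 - β) * h1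

theorem τlo (h : Par g β γ τ) : 0.38 < τ := by
  have h1 := h.glo
  have h2 := h.βhi
  rw [h.τ]
  nlinarith

theorem τhi (h : Par g β γ τ) : τ < 0.6181 := by
  have h1 := h.ghi
  have h3 := h.glo
  have h2 := h.β0
  rw [h.τ]
  nlinarith

theorem β_le_τ (h : Par g β γ τ) : β ≤ τ := by
  have h1 := h.gg
  have h2 := h.γ0
  have h3 := h.sum
  have h4 := h.glo
  have h5 : τ - β = g * γ := by
    have h6 : γ = 2 - g - β := by linarith
    rw [h.τ, h6]
    linear_combination h1
  have h7 : 0 ≤ g * γ := mul_nonneg (by linarith) h2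
  linarith

/-- `1 - τ - β = (g - 1) τ`. -/
theorem one_sub (h : Par g β γ τ) : 1 - τ - β = (g - 1) * τ := by
  have := h.τeq
  linarith

theorem β_le_one_sub (h : Par g β γ τ) : β ≤ 1 - τ := by
  have h1 := h.one_sub
  have h2 := h.τlo
  have h3 := h.g1
  nlinarith

/-- `1 - τ - γ = g β`. -/
theorem one_sub' (h : Par g β γ τ) : 1 - τ - γ = g * β := by
  have h6 : γ = 2 - g - β := by linarith [h.sum]
  rw [h.τ, h6]
  ring

end Par

/-- The roof: kink `(x, y)`, left slope `a`, right slope `-a'`. -/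
structure Roof (τ x y a a' : ℝ) : Prop where
  x0 : 0 ≤ x
  x1 : x ≤ 1
  conc : 0 ≤ a + a'
  l : 1 ≤ y - a * (x - τ)
  r : 1 ≤ y - a' * (τ - x)
  z0 : 0 ≤ y - a * x
  z1 : 0 ≤ y - a' * (1 - x)

namespace Roof

variable {g β γ τ x y a a' : ℝ}

/-- Twice the area under the roof. -/
theorem area (h : Roof τ x y a a') :
    τ * (y - a * x) + 1 + (1 - τ) * (y - a' * (1 - x)) ≤
      x * (y - a * x) + y + (1 - x) * (y - a' * (1 - x)) := by
  have h0 := h.x0
  have h1 := h.x1
  have h2 := h.conc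
  rcases le_total x τ with hx | hx
  · have h3 := h.r
    have h4 : 0 ≤ (τ - x) * (x * (a + a')) :=
      mul_nonneg (by linarith) (mul_nonneg h0 h2)
    nlinarith
  · have h3 := h.l
    have h4 : 0 ≤ (x - τ) * ((1 - x) * (a + a')) :=
      mul_nonneg (by linarith) (mul_nonneg (by linarith) h2)
    nlinarith

/-- The refined form, when the kink is to the left of `τ`. -/
theorem area' (h : Roof τ x y a a') (hx : x ≤ τ) :
    τ * (y - a * x) + (y - a' * (τ - x)) + (1 - τ) * (y - a' * (1 - x)) ≤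
      x * (y - a * x) + y + (1 - x) * (y - a' * (1 - x)) := by
  have h0 := h.x0
  have h2 := h.conc
  have h4 : 0 ≤ (τ - x) * (x * (a + a')) :=
    mul_nonneg (by linarith) (mul_nonneg h0 h2)
  nlinarith

theorem P (h : Roof τ x y a a') : 0 ≤ (x - τ) * (y - a * x) + τ * y - x := by
  have h0 := h.x0
  have h1 := h.l
  have : 0 ≤ x * (y - a * (x - τ) - 1) := mul_nonneg h0 (by linarith)
  nlinarith

theorem Q (h : Roof τ x y a a') : 0 ≤ y - (1 - x) * (y - a * x) - x * (y - a' * (1 - x)) := by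
  have h0 := h.x0
  have h1 := h.x1
  have : 0 ≤ x * (1 - x) * (a + a') := mul_nonneg (mul_nonneg h0 (by linarith)) h.conc
  nlinarith

theorem r0 (h : Roof τ x y a a') (p : Par g β γ τ) :
    0 ≤ (x - β) * (y - a * x) + y + (1 - x + β) * (y - a' * (1 - x)) - 1 := by
  have h1 := h.area
  have h2 : 0 ≤ (τ - β) * (y - a * x) := mul_nonneg (by linarith [p.β_le_τ]) h.z0
  have h3 : 0 ≤ (1 - τ + β) * (y - a' * (1 - x)) :=
    mul_nonneg (by linarith [p.τhi, p.β0]) h.z1
  nlinarith

theorem r2_left (h : Roof τ x y a a') (p : Par g β γ τ) (hx : x ≤ τ) :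
    0 ≤ (x - β) * (y - a * x) + y + (1 - x + β) * (y - a' * (1 - x)) - 1
      + β * (y - a' * (1 - x)) - β ^ 2 * a' + β * g := by
  have h1 := h.area' hx
  have hT : 0 ≤ y - a' * (τ - x) - 1 := by linarith [h.r]
  have h2 : 0 ≤ (τ - β) * (y - a * x) := mul_nonneg (by linarith [p.β_le_τ]) h.z0
  have hz1 := h.z1
  have hτ := p.τhi
  have hβ := p.β0
  have hβ' := p.βhi
  have hβτ := p.β_le_one_sub
  have hg := p.glo
  -- it suffices to bound the tent
  suffices hs : 0 ≤ (y - a' * (τ - x) - 1) + (1 - τ + 2 * β) * (y - a' * (1 - x))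
      - β ^ 2 * a' + β * g by nlinarith
  have hb2 : β ^ 2 ≤ 1 - τ := by nlinarith
  have key : (1 - τ) * ((y - a' * (τ - x) - 1) + (1 - τ + 2 * β) * (y - a' * (1 - x))
      - β ^ 2 * a' + β * g) = (1 - τ - β ^ 2) * (y - a' * (τ - x) - 1)
      + ((1 - τ) * (1 - τ + 2 * β) + β ^ 2) * (y - a' * (1 - x))
      + β * (g * (1 - τ) - β) := by ring
  have k1 : 0 ≤ (1 - τ - β ^ 2) * (y - a' * (τ - x) - 1) := mul_nonneg (by linarith) hT
  have k2 : 0 ≤ ((1 - τ) * (1 - τ + 2 * β) + β ^ 2) * (y - a' * (1 - x)) := by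
    apply mul_nonneg _ hz1
    have : 0 ≤ (1 - τ) * (1 - τ + 2 * β) := mul_nonneg (by linarith) (by linarith)
    positivity
  have k3 : 0 ≤ β * (g * (1 - τ) - β) := by
    apply mul_nonneg hβ
    nlinarith
  have k4 : 0 ≤ (1 - τ) * ((y - a' * (τ - x) - 1) + (1 - τ + 2 * β) * (y - a' * (1 - x))
      - β ^ 2 * a' + β * g) := by rw [key]; linarith
  exact nonneg_of_mul_nonneg_right k4 (by linarith)

theorem r2_right (h : Roof τ x y a a') (p : Par g β γ τ) (hx : τ ≤ x) (hx' : x ≤ 2 / 3) :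
    0 ≤ (x - β) * (y - a * x) + y + (1 - x + β) * (y - a' * (1 - x)) - 1
      + β * (y - a' * (1 - x)) - β ^ 2 * a' + β * g := by
  have hP := h.P
  have hQ := h.Q
  have hz0 := h.z0
  have hz1 := h.z1
  have hτ := p.τhi
  have hτ' := p.τlo
  have hβ := p.β0
  have hβ' := p.βhi
  have hβτ := p.β_le_one_sub
  have hg := p.glo
  have hg' := p.ghi
  have hgg := p.gg
  have hτe := p.τ
  set B : ℝ := x * (1 - x - β ^ 2) - τ * (1 - x) * (1 - β * g) with hB
  -- the quadratic `B` is nonnegative on `[τ, 2/3]`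
  have hBτ : 0 ≤ τ * (1 - τ - β ^ 2) - τ * (1 - τ) * (1 - β * g) := by
    have e : τ * (1 - τ - β ^ 2) - τ * (1 - τ) * (1 - β * g) =
        τ * β * (g * (1 - τ) - β) := by ring
    rw [e]
    apply mul_nonneg (mul_nonneg (by linarith) hβ)
    nlinarith
  have hB3 : 0 ≤ 2 / 3 * (1 - 2 / 3 - β ^ 2) - τ * (1 - 2 / 3) * (1 - β * g) := by
    have e : 2 / 3 * (1 - 2 / 3 - β ^ 2) - τ * (1 - 2 / 3) * (1 - β * g) =
        (5 / 3 - g + g * β - 3 * β ^ 2) / 3 := by
      rw [hτe]
      linear_combination ((1 / 3) * β * (1 - β)) * hgg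
    rw [e]
    nlinarith
  have hB0 : 0 ≤ B := by
    have e : (2 / 3 - τ) * B = (2 / 3 - τ) * ((x - τ) * (2 / 3 - x))
        + (2 / 3 - x) * (τ * (1 - τ - β ^ 2) - τ * (1 - τ) * (1 - β * g))
        + (x - τ) * (2 / 3 * (1 - 2 / 3 - β ^ 2) - τ * (1 - 2 / 3) * (1 - β * g)) := by
      rw [hB]; ring
    have k1 : 0 ≤ (2 / 3 - τ) * ((x - τ) * (2 / 3 - x)) :=
      mul_nonneg (by linarith) (mul_nonneg (by linarith) (by linarith))
    have k2 := mul_nonneg (by linarith : (0 : ℝ) ≤ 2 / 3 - x) hBτ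
    have k3 := mul_nonneg (by linarith : (0 : ℝ) ≤ x - τ) hB3
    have k4 : 0 ≤ (2 / 3 - τ) * B := by rw [e]; linarith
    exact nonneg_of_mul_nonneg_right k4 (by linarith)
  have hC0 : (1 - β - β ^ 2) - (1 - τ) * (1 - β * g) = g - 1 - β := by
    rw [hτe]
    linear_combination (-(β) * (1 - β)) * hgg
  set F : ℝ := (x - β) * (y - a * x) + y + (1 - x + β) * (y - a' * (1 - x)) - 1
      + β * (y - a' * (1 - x)) - β ^ 2 * a' + β * g with hF
  have key : x * (1 - x) * F = (1 - x) * (1 - β * g) *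
        ((x - τ) * (y - a * x) + τ * y - x)
      + B * (y - (1 - x) * (y - a * x) - x * (y - a' * (1 - x)))
      + x * (1 - x) * ((1 - β - β ^ 2) - (1 - τ) * (1 - β * g)) * (y - a * x)
      + (x * ((1 - x) * (1 - x + 2 * β) + β ^ 2) + B * x) * (y - a' * (1 - x)) := by
    rw [hF, hB]; ring
  rw [hC0] at key
  have hbg : 0 ≤ 1 - β * g := by nlinarith
  have k1 : 0 ≤ (1 - x) * (1 - β * g) * ((x - τ) * (y - a * x) + τ * y - x) :=
    mul_nonneg (mul_nonneg (by linarith) hbg) hP
  have k2 : 0 ≤ B * (y - (1 - x) * (y - a * x) - x * (y - a' * (1 - x))) :=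
    mul_nonneg hB0 hQ
  have k3 : 0 ≤ x * (1 - x) * (g - 1 - β) * (y - a * x) :=
    mul_nonneg (mul_nonneg (mul_nonneg (by linarith) (by linarith)) (by linarith)) hz0
  have k4 : 0 ≤ (x * ((1 - x) * (1 - x + 2 * β) + β ^ 2) + B * x) * (y - a' * (1 - x)) := by
    apply mul_nonneg _ hz1
    have e1 : 0 ≤ (1 - x) * (1 - x + 2 * β) := mul_nonneg (by linarith) (by linarith)
    have e2 : 0 ≤ x := by linarith
    have e3 : 0 ≤ B * x := mul_nonneg hB0 e2
    have e4 : 0 ≤ x * ((1 - x) * (1 - x + 2 * β) + β ^ 2) := mul_nonneg e2 (by positivity)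
    linarith
  have k5 : 0 ≤ x * (1 - x) * F := by rw [key]; linarith
  exact nonneg_of_mul_nonneg_right k5 (mul_pos (by linarith) (by linarith))

theorem r2 (h : Roof τ x y a a') (p : Par g β γ τ) (hx : x ≤ 2 / 3) :
    0 ≤ (x - β) * (y - a * x) + y + (1 - x + β) * (y - a' * (1 - x)) - 1
      + β * (y - a' * (1 - x)) - β ^ 2 * a' + β * g := by
  rcases le_total x τ with hxτ | hxτ
  · exact h.r2_left p hxτ
  · exact h.r2_right p hxτ hx

theorem r3 (h : Roof τ x y a a') (p : Par g β γ τ) (hx : 2 / 3 ≤ x) :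
    1 + β * g ≤ x * (y - a * x) + y + (1 - x) * (y - a' * (1 - x)) := by
  have hP := h.P
  have hQ := h.Q
  have hz0 := h.z0
  have hz1 := h.z1
  have hβ := p.β0
  have hβ' := p.βhi
  have hg := p.glo
  have hg' := p.ghi
  have hgg := p.gg
  have hτe := p.τ
  have hγ : γ = 2 - g - β := by linarith [p.sum]
  have hx1 := h.x1
  have hB : 0 ≤ x - τ * (1 + β * g) := by
    have e : τ * (1 + β * g) = (g - 1) + (2 - g) * β - β ^ 2 := by
      rw [hτe]
      linear_combination (β * (1 - β)) * hgg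
    rw [e]
    nlinarith [sq_nonneg (β - 0.191)]
  have hC : 1 - (1 - τ) * (1 + β * g) = γ * (β + g) := by
    rw [hτe, hγ]
    linear_combination (β * (1 - β) + 1) * hgg
  have key : x * (x * (y - a * x) + y + (1 - x) * (y - a' * (1 - x)) - 1 - β * g) =
      (1 + β * g) * ((x - τ) * (y - a * x) + τ * y - x)
      + (x - τ * (1 + β * g)) * (y - (1 - x) * (y - a * x) - x * (y - a' * (1 - x)))
      + x * (1 - (1 - τ) * (1 + β * g)) * (y - a * x)
      + (x * (1 - x) + (x - τ * (1 + β * g)) * x) * (y - a' * (1 - x)) := by ring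
  rw [hC] at key
  have hx0 : 0 ≤ x := by linarith
  have k1 : 0 ≤ (1 + β * g) * ((x - τ) * (y - a * x) + τ * y - x) :=
    mul_nonneg (by nlinarith) hP
  have k2 := mul_nonneg hB hQ
  have k3 : 0 ≤ x * (γ * (β + g)) * (y - a * x) :=
    mul_nonneg (mul_nonneg hx0 (mul_nonneg p.γ0 (by linarith))) hz0
  have k4 : 0 ≤ (x * (1 - x) + (x - τ * (1 + β * g)) * x) * (y - a' * (1 - x)) := by
    apply mul_nonneg _ hz1
    have e1 : 0 ≤ x * (1 - x) := mul_nonneg hx0 (by linarith)
    have e2 := mul_nonneg hB hx0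
    linarith
  have k5 : 0 ≤ x * (x * (y - a * x) + y + (1 - x) * (y - a' * (1 - x)) - 1 - β * g) := by
    rw [key]; linarith
  have k6 := nonneg_of_mul_nonneg_right k5 (by linarith)
  linarith

end Roof

/-- The floor (turned upside down): kink `(x, y)`, left slope `b`, right slope `-b'`. -/
structure Floor (g β γ x y b b' : ℝ) : Prop where
  x0 : 0 ≤ x
  x1 : x ≤ 1
  conc : 0 ≤ b + b'
  l : g ≤ y - b * (x - β)
  r : g ≤ y - b' * (β - x)
  l' : g ≤ y - b * (x - (1 - γ))
  r' : g ≤ y - b' * ((1 - γ) - x)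
  z0 : 0 ≤ y - b * x
  z1 : 0 ≤ y - b' * (1 - x)

namespace Floor

variable {g β γ τ x y b b' : ℝ}

/-- Kink to the right of `g * β`. -/
theorem area_right (h : Floor g β γ x y b b') (p : Par g β γ τ) (hx : g * β ≤ x) :
    2 * g + γ * ((y - b' * (1 - x)) - (y - b * x)) ≤
      x * (y - b * x) + y + (1 - x) * (y - b' * (1 - x)) := by
  have hgg := p.gg
  have hβ := p.β0
  have hγ := p.γ0
  have hβ' := p.βhi
  have hγ' := p.γhi
  have hg := p.glo
  have hg' := p.ghi
  have hγe : γ = 2 - g - β := by linarith [p.sum]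
  have hm1 : 0 ≤ g * (1 - γ) := mul_nonneg (by linarith) (by linarith)
  have hm2 : 0 ≤ g * (1 - γ - 2 * β) := mul_nonneg (by linarith) (by linarith)
  have hl := h.l
  have hr' := h.r'
  have hl' := h.l'
  have hx1 := h.x1
  rcases le_total x (1 - γ) with hx2 | hx2
  · have key : x * (y - b * x) + y + (1 - x) * (y - b' * (1 - x))
        - (2 * g + γ * ((y - b' * (1 - x)) - (y - b * x))) =
        g * (1 - γ) * (y - b * (x - β) - g)
        + g * (1 - γ - 2 * β) * (y - b' * ((1 - γ) - x) - g)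
        + (1 - γ - x) * (x - g * β) * (b + b') := by
      rw [hγe]
      linear_combination (x * b - x * b' - 2 * y + b' * (g - 1 + β) + 2 * g) * hgg
    have k1 := mul_nonneg hm1 (sub_nonneg.2 hl)
    have k2 := mul_nonneg hm2 (sub_nonneg.2 hr')
    have k3 : 0 ≤ (1 - γ - x) * (x - g * β) * (b + b') :=
      mul_nonneg (mul_nonneg (by linarith) (by linarith)) h.conc
    linarith
  · have key : x * (y - b * x) + y + (1 - x) * (y - b' * (1 - x))
        - (2 * g + γ * ((y - b' * (1 - x)) - (y - b * x))) =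
        g * (1 - γ) * (y - b * (x - β) - g)
        + g * (1 - γ - 2 * β) * (y - b * (x - (1 - γ)) - g)
        + (1 - x) * (γ - 1 + x) * (b + b') := by
      rw [hγe]
      linear_combination (2 * x * b - 2 * y - b * (g - 1 + β) + 2 * g) * hgg
    have k1 := mul_nonneg hm1 (sub_nonneg.2 hl)
    have k2 := mul_nonneg hm2 (sub_nonneg.2 hl')
    have k3 : 0 ≤ (1 - x) * (γ - 1 + x) * (b + b') :=
      mul_nonneg (mul_nonneg (by linarith) (by linarith)) h.conc
    linarith

/-- Right slope nonpositive, kink to the left of `g * β`. -/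
theorem neg_slope (h : Floor g β γ x y b b') (p : Par g β γ τ) (hx : x ≤ g * β)
    (hd : x ≤ β → y - b * x ≤ g) (hb : 0 ≤ b') :
    (2 * g - 3) * b' + (y - b' * ((1 - γ) - x) - g) ≤
      (x - β) * (y - b * x) + y + (1 - x + β) * (y - b' * (1 - x)) - 2 * g := by
  have hgg := p.gg
  have hβ := p.β0
  have hγ := p.γ0
  have hβ' := p.βhi
  have hγ' := p.γhi
  have hg := p.glo
  have hg' := p.ghi
  have hsum := p.sum
  have hx0 := h.x0
  have hx1 := h.x1
  have hh : 0 ≤ y - b' * ((1 - γ) - x) - g := by linarith [h.r']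
  rcases le_total x β with hxβ | hxβ
  · have h1 : (x - β) * g ≤ (x - β) * (y - b * x) := by
      have := mul_nonneg (sub_nonneg.2 hxβ) (sub_nonneg.2 (hd hxβ))
      nlinarith
    have key : (x - β) * g + y + (1 - x + β) * (y - b' * (1 - x)) - 2 * g =
        (2 - x + β) * (y - b' * ((1 - γ) - x) - g)
        + b' * (1 - 2 * γ - γ * β - x * (1 - γ)) := by ring
    have h2 : 0 ≤ (1 - x + β) * (y - b' * ((1 - γ) - x) - g) := mul_nonneg (by linarith) hh
    have h3 : 0 ≤ b' * ((1 - 2 * γ - γ * β - x * (1 - γ)) - (2 * g - 3)) := by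
      apply mul_nonneg hb
      have : 0 ≤ (β - x) * (1 - γ) := mul_nonneg (by linarith) (by linarith)
      nlinarith
    nlinarith
  · have h1 : g * x ≤ (x - β) * (y - b * x) + β * y := by
      have := mul_nonneg hx0 (sub_nonneg.2 h.l)
      nlinarith
    have key : g * x + (1 - β) * y + (1 - x + β) * (y - b' * (1 - x)) - 2 * g =
        (2 - x) * (y - b' * ((1 - γ) - x) - g)
        + b' * (1 - β - 2 * γ - x * (1 - β - γ)) := by ring
    have h2 : 0 ≤ (1 - x) * (y - b' * ((1 - γ) - x) - g) := mul_nonneg (by linarith) hh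
    have h3 : 0 ≤ b' * ((1 - β - 2 * γ - x * (1 - β - γ)) - (2 * g - 3)) := by
      apply mul_nonneg hb
      have e : 1 - β - γ = g - 1 := by linarith
      rw [e]
      have : x * (g - 1) ≤ g * β * (g - 1) := mul_le_mul_of_nonneg_right hx (by linarith)
      have e2 : g * β * (g - 1) = β := by linear_combination β * hgg
      linarith
    nlinarith

/-- Right slope positive, kink to the left of `g * β`. -/
theorem pos_slope (h : Floor g β γ x y b b') (p : Par g β γ τ) (hx : x ≤ g * β)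
    (hd : x ≤ β → y - b * x ≤ g) (hb : b' ≤ 0) :
    0 ≤ y - b' * (1 - x) - g ∧
    3 / 4 * (y - b' * (1 - x) - g) ≤
      (x - β) * (y - b * x) + y + (1 - x + β) * (y - b' * (1 - x)) - 2 * g := by
  have hgg := p.gg
  have hβ := p.β0
  have hγ := p.γ0
  have hβ' := p.βhi
  have hγ' := p.γhi
  have hg := p.glo
  have hg' := p.ghi
  have hsum := p.sum
  have hx0 := h.x0
  have hx1 := h.x1
  have hc : 0 ≤ -b' := by linarith
  rcases le_total x β with hxβ | hxβ
  · have hh : 0 ≤ y - b' * (β - x) - g := by linarith [h.r]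
    have h1 : (x - β) * g ≤ (x - β) * (y - b * x) := by
      have := mul_nonneg (sub_nonneg.2 hxβ) (sub_nonneg.2 (hd hxβ))
      nlinarith
    have e1 : y - b' * (1 - x) - g = (y - b' * (β - x) - g) + (-b') * (1 - β) := by ring
    have key : (x - β) * g + y + (1 - x + β) * (y - b' * (1 - x)) - 2 * g =
        (2 - x + β) * (y - b' * (β - x) - g)
        + (-b') * (1 - β - β ^ 2 + β * x) := by ring
    have h2 : 0 ≤ (2 - x + β - 3 / 4) * (y - b' * (β - x) - g) :=
      mul_nonneg (by linarith) hh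
    have h3 : 0 ≤ (-b') * ((1 - β - β ^ 2 + β * x) - 3 / 4 * (1 - β)) := by
      apply mul_nonneg hc
      have : 0 ≤ β * x := mul_nonneg hβ hx0
      nlinarith
    have h4 : 0 ≤ (-b') * (1 - β) := mul_nonneg hc (by linarith)
    constructor
    · rw [e1]; linarith
    · rw [e1]; nlinarith
  · have hb0 : 0 ≤ b := by linarith [h.conc]
    have hh : 0 ≤ y - g := by
      have := mul_nonneg hb0 (sub_nonneg.2 hxβ)
      have := h.l
      linarith
    have h1 : g * x ≤ (x - β) * (y - b * x) + β * y := by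
      have := mul_nonneg hx0 (sub_nonneg.2 h.l)
      nlinarith
    have h2 : 0 ≤ (2 - x - 3 / 4) * (y - g) := mul_nonneg (by linarith) hh
    have hxβ2 : x - β ≤ 1 / 4 := by nlinarith
    have h3 : 0 ≤ (-b') * (1 - x) * ((1 - x + β) - 3 / 4) :=
      mul_nonneg (mul_nonneg hc (by linarith)) (by linarith)
    have h4 : 0 ≤ (-b') * (1 - x) := mul_nonneg hc (by linarith)
    constructor
    · nlinarith
    · nlinarith

/-- The three consequences for a kink to the left of `g * β`. -/
theorem left (h : Floor g β γ x y b b') (p : Par g β γ τ) (hx : x ≤ g * β)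
    (hd : x ≤ β → y - b * x ≤ g) :
    0 ≤ (x - β) * (y - b * x) + y + (1 - x + β) * (y - b' * (1 - x)) - 2 * g ∧
    β * g ≤ (x - β) * (y - b * x) + y + (1 - x + β) * (y - b' * (1 - x)) - 2 * g
      + β * (y - b' * (1 - x)) - β ^ 2 * b' ∧
    - (β * g) ≤ (x - β) * (y - b * x) + y + (1 - x + β) * (y - b' * (1 - x)) - 2 * g
      - β * (y - b' * (1 - x)) := by
  have hβ := p.β0
  have hγ := p.γ0
  have hβ' := p.βhi
  have hg := p.glo
  have hsum := p.sum
  rcases le_total 0 b' with hb | hb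
  · have h1 := h.neg_slope p hx hd hb
    set h2 : ℝ := y - b' * ((1 - γ) - x) - g with hh2
    have hh : 0 ≤ h2 := by rw [hh2]; linarith [h.r']
    have e : y - b' * (1 - x) = g - b' * γ + h2 := by rw [hh2]; ring
    set Ds : ℝ := (x - β) * (y - b * x) + y + (1 - x + β) * (y - b' * (1 - x)) - 2 * g
      with hDs
    rw [e]
    have k1 : 0 ≤ (2 * g - 3) * b' := mul_nonneg (by linarith) hb
    have k2 : 0 ≤ ((2 * g - 3) - β * γ - β ^ 2) * b' := by
      apply mul_nonneg _ hb
      have : β * γ + β ^ 2 = β * (2 - g) := by rw [← hsum]; ring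
      nlinarith
    have k3 : 0 ≤ β * h2 := mul_nonneg hβ hh
    have k4 : 0 ≤ (1 - β) * h2 := mul_nonneg (by linarith) hh
    have k5 : 0 ≤ β * (b' * γ) := mul_nonneg hβ (mul_nonneg hb hγ)
    refine ⟨by linarith, ?_, ?_⟩
    · nlinarith
    · nlinarith
  · obtain ⟨h0, h1⟩ := h.pos_slope p hx hd hb
    have k1 : 0 ≤ β * (y - b' * (1 - x) - g) := mul_nonneg hβ h0
    have k2 : 0 ≤ (3 / 4 - β) * (y - b' * (1 - x) - g) := mul_nonneg (by linarith) h0
    have k3 : 0 ≤ β ^ 2 * (-b') := mul_nonneg (sq_nonneg β) (by linarith)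
    refine ⟨by linarith, ?_, ?_⟩
    · nlinarith
    · nlinarith

/-- The case of a floor starting above `g`. -/
theorem high (h : Floor g β γ x y b b') (p : Par g β γ τ) (hx : x ≤ β)
    (hd : g ≤ y - b * x) :
    2 * g ≤ x * (y - b * x) + y + (1 - x) * (y - b' * (1 - x)) ∨
    (y - b' * (1 - x) ≤ g ∧
      2 * g - γ * (g - (y - b' * (1 - x))) ≤
        x * (y - b * x) + y + (1 - x) * (y - b' * (1 - x))) := by
  have hβ := p.β0
  have hγ := p.γ0
  have hβ' := p.βhi
  have hγ' := p.γhi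
  have hg := p.glo
  have hx0 := h.x0
  have hx1 := h.x1
  have hu : 0 ≤ x * (y - b * x - g) := mul_nonneg hx0 (by linarith)
  rcases le_total g (y - b' * (1 - x)) with hD | hD
  · left
    have hy : g ≤ y := by
      have h1 : 0 ≤ x * (1 - x) * (b + b') :=
        mul_nonneg (mul_nonneg hx0 (by linarith)) h.conc
      have h2 : 0 ≤ (1 - x) * (y - b * x - g) := mul_nonneg (by linarith) (by linarith)
      have h3 : 0 ≤ x * (y - b' * (1 - x) - g) := mul_nonneg hx0 (by linarith)
      nlinarith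
    have h3 : 0 ≤ (1 - x) * (y - b' * (1 - x) - g) := mul_nonneg (by linarith) (by linarith)
    nlinarith
  · right
    refine ⟨hD, ?_⟩
    have hb : g - (y - b' * (1 - x)) ≤ b' * γ := by
      have := h.r'
      nlinarith
    have hγ1 : 0 < 1 - γ := by linarith
    -- first, `b' (1 - x) ≥ (2 - x - γ) (g - D1)`
    rcases hγ.eq_or_lt with hγ0 | hγ0
    · have : g - (y - b' * (1 - x)) = 0 := by
        rw [← hγ0] at hb
        linarith
      have hy : y - b' * (1 - x) = g := by linarith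
      rw [hy]
      have hb0 : g ≤ y := by
        have h1 : 0 ≤ x * (1 - x) * (b + b') :=
          mul_nonneg (mul_nonneg hx0 (by linarith)) h.conc
        have h2 : 0 ≤ (1 - x) * (y - b * x - g) := mul_nonneg (by linarith) (by linarith)
        nlinarith
      nlinarith
    · have h1 : 0 ≤ (b' * γ - (g - (y - b' * (1 - x)))) * (1 - x) :=
        mul_nonneg (by linarith) (by linarith)
      have h2 : 0 ≤ (g - (y - b' * (1 - x))) * ((1 - γ) * (1 - γ - x)) :=
        mul_nonneg (by linarith) (mul_nonneg hγ1.le (by linarith))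
      have key : γ * (b' * (1 - x) - (2 - x - γ) * (g - (y - b' * (1 - x)))) =
          (b' * γ - (g - (y - b' * (1 - x)))) * (1 - x)
          + (g - (y - b' * (1 - x))) * ((1 - γ) * (1 - γ - x)) := by ring
      have h3 : 0 ≤ γ * (b' * (1 - x) - (2 - x - γ) * (g - (y - b' * (1 - x)))) := by
        rw [key]; linarith
      have h4 := nonneg_of_mul_nonneg_right h3 hγ0
      nlinarith

end Floor

/-- The main inequality: twice the area, with the area `E` outside on the right. -/
theorem core {g β γ τ x y a a' u v b b' E : ℝ} (p : Par g β γ τ)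
    (hR : Roof τ x y a a') (hD : Floor g β γ u v b b') (hE : 0 ≤ E)
    (hw : (y - a * x) + (v - b * u) ≤ (y - a' * (1 - x)) + (v - b' * (1 - u)))
    (hσ : ((y - a' * (1 - x)) + (v - b' * (1 - u))) ^ 2 - ((y - a * x) + (v - b * u)) ^ 2 ≤
      (a' + b') * E) :
    1 + 2 * g ≤ (x * (y - a * x) + y + (1 - x) * (y - a' * (1 - x)))
      + (u * (v - b * u) + v + (1 - u) * (v - b' * (1 - u))) + E := by
  have hgg := p.gg
  have hβ := p.β0
  have hγ := p.γ0
  have hβ' := p.βhi
  have hγ' := p.γhi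
  have hg := p.glo
  have hg' := p.ghi
  have hsum := p.sum
  have hτ := p.τlo
  have hτ' := p.τhi
  have hA := hR.area
  have hz0 := hR.z0
  have hz1 := hR.z1
  have hs0 := hD.z0
  have hs1 := hD.z1
  have h1τγ := p.one_sub'
  rcases le_total (g * β) u with hu | hu
  · have h1 := hD.area_right p hu
    have h2 : 0 ≤ γ * (((y - a' * (1 - x)) + (v - b' * (1 - u))) - ((y - a * x) + (v - b * u))) :=
      mul_nonneg hγ (by linarith)
    have h3 : 0 ≤ (1 - τ - γ) * (y - a' * (1 - x)) := by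
      rw [h1τγ]
      exact mul_nonneg (mul_nonneg (by linarith) hβ) hz1
    have h4 : 0 ≤ (τ + γ) * (y - a * x) := mul_nonneg (by linarith) hz0
    nlinarith
  by_cases ha : u ≤ β ∧ g ≤ v - b * u
  · rcases hD.high p ha.1 ha.2 with h1 | ⟨h0, h1⟩
    · have h3 : 0 ≤ (1 - τ) * (y - a' * (1 - x)) := mul_nonneg (by linarith) hz1
      have h4 : 0 ≤ τ * (y - a * x) := mul_nonneg (by linarith) hz0
      linarith
    · have h3 : 0 ≤ (1 - τ) * ((y - a' * (1 - x)) - (g - (v - b' * (1 - u)))) :=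
        mul_nonneg (by linarith) (by linarith [ha.2])
      have h4 : 0 ≤ τ * (y - a * x) := mul_nonneg (by linarith) hz0
      have h5 : 0 ≤ (1 - τ - γ) * (g - (v - b' * (1 - u))) := by
        rw [h1τγ]
        exact mul_nonneg (mul_nonneg (by linarith) hβ) (by linarith)
      nlinarith
  have hd : u ≤ β → v - b * u ≤ g := by
    intro h1
    by_contra h2
    exact ha ⟨h1, by linarith⟩
  obtain ⟨d0, d2, d3⟩ := hD.left p hu hd
  have r0 := hR.r0 p
  rcases le_total (2 / 3) x with hx | hx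
  · have r3 := hR.r3 p hx
    have h1 : 0 ≤ β * (v - b * u) := mul_nonneg hβ hs0
    nlinarith
  have r2 := hR.r2 p hx
  set w0 : ℝ := (y - a * x) + (v - b * u) with hw0
  set w1 : ℝ := (y - a' * (1 - x)) + (v - b' * (1 - u)) with hw1
  set σ : ℝ := a' + b' with hσd
  have hw0n : 0 ≤ w0 := by rw [hw0]; linarith
  -- it suffices to bound `β (w1 - w0) - E`
  have hmain : β * (w1 - w0) - E ≤ 0 ∨ β * (w1 - w0) - E ≤ β ^ 2 * σ - β * w1 := by
    rcases le_total (β * σ) (w0 + w1) with hc | hc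
    · left
      rcases lt_or_ge 0 σ with hσ0 | hσ0
      · have h1 : 0 ≤ (w1 - w0) * (w0 + w1 - β * σ) := mul_nonneg (by linarith) (by linarith)
        have h2 : 0 ≤ σ * (E - β * (w1 - w0)) := by nlinarith
        have := nonneg_of_mul_nonneg_right h2 hσ0
        linarith
      · have h1 : σ * E ≤ 0 := mul_nonpos_of_nonpos_of_nonneg hσ0 hE
        have h2 : (w1 - w0) ^ 2 ≤ 0 := by nlinarith
        have h3 : w1 - w0 = 0 := by nlinarith
        rw [h3]; linarith
    · right
      rcases lt_or_ge 0 σ with hσ0 | hσ0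
      · have h1 : 0 ≤ w0 * (β * σ - w0) := mul_nonneg hw0n (by linarith)
        have h2 : 0 ≤ σ * (β ^ 2 * σ - β * w1 - β * (w1 - w0) + E) := by
          nlinarith [sq_nonneg (w1 - β * σ)]
        have := nonneg_of_mul_nonneg_right h2 hσ0
        linarith
      · have h1 : β * σ ≤ 0 := mul_nonpos_of_nonneg_of_nonpos hβ hσ0
        have h2 : w0 = 0 := by linarith
        have h3 : w1 = 0 := by linarith
        have h4 : β * σ = 0 := by linarith
        have h5 : β ^ 2 * σ = 0 := by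
          have : β ^ 2 * σ = β * (β * σ) := by ring
          rw [this, h4, mul_zero]
        rw [h2, h3, h5]; linarith
  have e1 : (x * (y - a * x) + y + (1 - x) * (y - a' * (1 - x)))
      + (u * (v - b * u) + v + (1 - u) * (v - b' * (1 - u))) + E - (1 + 2 * g) =
      ((x - β) * (y - a * x) + y + (1 - x + β) * (y - a' * (1 - x)) - 1)
      + ((u - β) * (v - b * u) + v + (1 - u + β) * (v - b' * (1 - u)) - 2 * g)
      - (β * (w1 - w0) - E) := by rw [hw0, hw1]; ring
  have e2 : β * w1 = β * (y - a' * (1 - x)) + β * (v - b' * (1 - u)) := by rw [hw1]; ring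
  have e3 : β ^ 2 * σ = β ^ 2 * a' + β ^ 2 * b' := by rw [hσd]; ring
  rcases hmain with h1 | h1
  · linarith
  · rw [e2, e3] at h1
    linarith

end Pool.Agent.Helper61.PH
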